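import Pool.Agent.X120.BM.Defs
import Pool.Agent.X120.HG.Fam
import Pool.Agent.X120.HG.Abs

/-!
# Families with big symplectic monodromy: the counting theorem
-/

set_option autoImplicit false

open PowerSeries Matrix

namespace Pool.Agent.X120.BM

theorem IsHodge.hs {n w : ℕ} {A : Matrix (Fin n) (Fin n) ℚ} {H : ℕ → Submodule ℂ (Fin n → ℂ)} (h : IsHodge w A H) :
    Pool.Agent.X120.HG.HS w A H := ⟨h.alt, h.nondeg, h.span, h.conj, h.orth⟩

theorem split_eq {n₀ : ℕ} {Φ₀ : Matrix (Fin n₀) (Fin n₀) ℂ} (h : IsSplitOperator Φ₀) :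
    ∃ (B : Matrix (Fin n₀) (Fin n₀) ℂ) (p : Fin n₀ → ℤ), IsUnit B.det ∧ Φ₀ = Pool.Agent.X120.HG.opB B p := by
  obtain ⟨B, p, hB, h1⟩ := h
  refine ⟨B, p, hB, ?_⟩
  have h2 : B * Φ₀ = Matrix.diagonal (fun i => (p i : ℂ)) * B := by
    ext i j
    rw [Matrix.diagonal_mul]
    exact congrFun (h1 i) j
  have h3 : B⁻¹ * (B * Φ₀) = B⁻¹ * (Matrix.diagonal (fun i => (p i : ℂ)) * B) := by rw [h2]
  rw [← Matrix.mul_assoc, Matrix.nonsing_inv_mul _ hB, Matrix.one_mul, ← Matrix.mul_assoc] at h3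
  exact h3

/-- **The counting theorem.** -/
theorem count {k : ℕ} (n₀ e : ℕ) (G : Fin k → GSystem) (n : Fin k → ℕ) (b : Fin k → ℕ) (hb : ∀ i, 2 ≤ b i) :
    ∃ K : ℝ, 0 ≤ K ∧ ∀ Φ₀ : Matrix (Fin n₀) (Fin n₀) ℂ, IsSplitOperator Φ₀ →
      ∀ F : ∀ i, Periods (G i) (n i) e, ∀ w : Fin k → ℕ, ∀ N : ℕ, 2 ≤ N →
      ∀ S : Set (Fin k → ℕ), (∀ t ∈ S, (∀ i, 1 ≤ t i ∧ t i ≤ N) ∧
        ¬ ∀ (A : ∀ i, Matrix (Fin (n i)) (Fin (n i)) ℚ) (H : ∀ i, ℕ → Submodule ℂ (Fin (n i) → ℂ)),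
          IsFibre F w b t A H → Pool.Agent.X120.HG.RG Φ₀ w A H) →
        ((S.ncard : ℕ) : ℝ) * N ≤ K * (N : ℝ) ^ k * Real.log N := by
  classical
  obtain ⟨K, hK, hcount⟩ := Pool.Agent.X120.HG.fam_gen n₀ k e e (fun i => (G i).r) n (fun i => (G i).h) hb
    (fun i δ => fam (G i).isG (hb i) δ)
  refine ⟨K, hK, ?_⟩
  intro Φ₀ hΦ₀ F w N hN S hS
  obtain ⟨B₀, p₀, hB₀, rfl⟩ := split_eq hΦ₀
  by_cases hw : ∀ i, 0 < w i
  · have hfin : S.Finite := by
      refine (Set.finite_Iic (fun _ : Fin k => N)).subset ?_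
      intro t ht i
      exact ((hS t ht).1 i).2
    rw [Set.ncard_eq_toFinset_card S hfin]
    refine hcount B₀ hB₀ p₀ (fun i => (F i).P) (fun i => (F i).degP) (fun i => (F i).L) (fun i => (F i).degL)
      (fun i => (F i).B) (fun i => (Matrix.isUnit_iff_isUnit_det _).1 (F i).unitB) (fun i => (F i).altB) ?_
      (fun i => Pi.single (F i).c 1) w hw N hN hfin.toFinset fun t ht => ?_
    · intro i g hg
      have h1 := (F i).big g hg
      rw [gal_eq] at h1
      exact h1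
    · have ht' := hS t (hfin.mem_toFinset.1 ht)
      refine ⟨ht'.1, fun hgood => ht'.2 ?_⟩
      intro A H hF
      have hvec : ∀ i, (Pool.Agent.X120.GS.lamT (fun i => (F i).L) b t i * Pool.Agent.Y120.R.pM (G i).h
          (Pool.Agent.X120.GS.soM (fun i => (F i).P) i) (Pool.Agent.X120.GS.tp b t i : ℝ)) *ᵥ
            (fun a => (((Pi.single (F i).c 1 : Fin (n i) → ℚ) a : ℚ) : ℂ)) = (F i).vec (b i) (t i) := by
        intro i
        have e1 : (fun a => (((Pi.single (F i).c 1 : Fin (n i) → ℚ) a : ℚ) : ℂ)) = Pi.single (F i).c 1 := by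
          funext a
          by_cases ha : a = (F i).c
          · subst ha
            simp
          · rw [Pi.single_eq_of_ne ha, Pi.single_eq_of_ne ha, Rat.cast_zero]
        have e2 : Pool.Agent.Y120.R.pM (G i).h (Pool.Agent.X120.GS.soM (fun i => (F i).P) i)
            (Pool.Agent.X120.GS.tp b t i : ℝ) = perMat (G i).h (F i).P ((b i : ℝ) ^ t i) := by
          have e3 : (Pool.Agent.X120.GS.tp b t i : ℝ) = (b i : ℝ) ^ t i := by
            unfold Pool.Agent.X120.GS.tp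
            push_cast
            rfl
          rw [e3]
          exact (perMat_eq _ _ _).symm
        rw [e1, Matrix.mulVec_single_one, e2]
        rfl
      refine hgood A H (fun i => (hF i).2.1.hs) (fun i => (F i).unitL _) (fun i => ?_) (fun i => ?_)
      · rw [hvec]
        exact (hF i).2.2.1
      · rw [hvec]
        exact (hF i).2.2.2
  · -- no fibres
    have hempty : S = ∅ := by
      rw [Set.eq_empty_iff_forall_notMem]
      intro t ht
      exact (hS t ht).2 fun A H hF => absurd (fun i => (hF i).1) hw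
    rw [hempty, Set.ncard_empty, Nat.cast_zero, zero_mul]
    have h1 : 0 ≤ Real.log N := Real.log_nonneg (by exact_mod_cast (by omega : 1 ≤ N))
    positivity

end Pool.Agent.X120.BM
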