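import Pool.Agent.X120.GS.Degv

/-!
# Families with big symplectic monodromy near a fibre over a rational point: definitions
-/

set_option autoImplicit false

open PowerSeries Matrix

namespace Pool.Agent.X120.BM

/-- an integer polynomial as a power series with rational coefficients -/
noncomputable def toQ (P : Polynomial ℤ) : PowerSeries ℚ := ((P.map (Int.castRingHom ℚ) : Polynomial ℚ) : PowerSeries ℚ)

/-- the power series `P(u^e)` -/
noncomputable def atPow (e : ℕ) (P : Polynomial ℤ) : PowerSeries ℂ :=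
  ((Polynomial.expand ℂ e (P.map (Int.castRingHom ℂ)) : Polynomial ℂ) : PowerSeries ℂ)

/-- the matrices `G_s` over `ℤ[x]` with `T^s y^(s) = G_s y` for all solutions `y` of `T y' = A y` -/
noncomputable def iter {r : ℕ} (T : Polynomial ℤ) (A : Fin r → Fin r → Polynomial ℤ) : ℕ → Fin r → Fin r → Polynomial ℤ
  | 0 => fun i j => if i = j then 1 else 0
  | s + 1 => fun i j => T * Polynomial.derivative (iter T A s i j) + ∑ l, iter T A s i l * A l j -
      (s : Polynomial ℤ) * (Polynomial.derivative T * iter T A s i j)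

/-- The system `T y' = A y` has a fundamental matrix of solutions of the form `u^(-M) ∑_n Φ_n(u) (log u)^n` with
`u^e = x` and convergent power series `Φ_n`: the point `0` is regular or a regular singularity with rational
exponents. -/
def QuasiUnipotent {r : ℕ} (T : Polynomial ℤ) (A : Fin r → Fin r → Polynomial ℤ) : Prop :=
  ∃ (e M : ℕ) (K : ℝ) (Φ : Matrix (Fin r) (Fin r) (Polynomial (PowerSeries ℂ))), 1 ≤ e ∧ Φ.det ≠ 0 ∧
    (∀ i j n m, ‖coeff m ((Φ i j).coeff n)‖ ≤ K ^ (m + 1)) ∧
    ∀ i j n, atPow e T * (X * PowerSeries.derivative ℂ ((Φ i j).coeff n) +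
        ((n : PowerSeries ℂ) + 1) * (Φ i j).coeff (n + 1) - (M : PowerSeries ℂ) * (Φ i j).coeff n) =
      (e : PowerSeries ℂ) * X ^ e * ∑ l, atPow e (A i l) * (Φ l j).coeff n

/-- `h_1, ..., h_r` are G-functions with rational coefficients which solve the differential system `T y' = A y`, with
the conditions of Siegel and Galochkin, and `∞` is a regular point or a regular singularity with rational exponents of the
system: for `z = 1 / x` the system is `z² T^(z) dy/dz = - A^(z) y` where `T^(z) = z^d T(1/z)` and `A^(z) = z^d A(1/z)` are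
the reflected polynomials. -/
structure GFamily {r : ℕ} (T : Polynomial ℤ) (A : Fin r → Fin r → Polynomial ℤ) (h : Fin r → PowerSeries ℚ) : Prop where
  /-- the denominator is not zero -/
  T_ne : T ≠ 0
  /-- the differential equations -/
  ode : ∀ i, toQ T * PowerSeries.derivative ℚ (h i) = ∑ j, toQ (A i j) * h j
  /-- the coefficients have geometric growth -/
  size : ∃ C : ℝ, ∀ i m, |((coeff m (h i) : ℚ) : ℝ)| ≤ C ^ (m + 1)
  /-- the common denominators of the coefficients have geometric growth -/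
  den : ∃ C : ℝ, ∀ m : ℕ, ∃ d : ℕ, 0 < d ∧ (d : ℝ) ≤ C ^ (m + 1) ∧ ∀ i, ∀ j ≤ m, ∃ a : ℤ, (d : ℚ) * coeff j (h i) = a
  /-- Galochkin's condition: the common denominators of the matrices `G_s / s!` have geometric growth -/
  galochkin : ∃ C : ℝ, ∀ m : ℕ, ∃ d : ℕ, 0 < d ∧ (d : ℝ) ≤ C ^ (m + 1) ∧ ∀ s ≤ m, ∀ i j,
    ∃ H : Polynomial ℤ, (d : Polynomial ℤ) * iter T A s i j = (s.factorial : Polynomial ℤ) * H
  /-- the local exponents at `∞` are rational and the singularity is regular -/
  regular_infty : ∃ d : ℕ, T.natDegree ≤ d ∧ (∀ i j, (A i j).natDegree ≤ d) ∧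
    QuasiUnipotent (Polynomial.X ^ 2 * T.reflect d) (fun i j => - (A i j).reflect d)

theorem iter_eq {r : ℕ} (T : Polynomial ℤ) (A : Fin r → Fin r → Polynomial ℤ) (s : ℕ) :
    iter T A s = Pool.Agent.Y120.GH.itm T A s := by
  induction s with
  | zero => rfl
  | succ s ih =>
    funext i j
    rw [iter, Pool.Agent.Y120.GH.itm, ih]

theorem qu_eq {r : ℕ} {T : Polynomial ℤ} {A : Fin r → Fin r → Polynomial ℤ} (h : QuasiUnipotent T A) :
    Pool.Agent.Y120.GH.QU0 T A := by
  obtain ⟨e, M, K, Φ, he, hdet, hc, heq⟩ := h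
  have he0 : e ≠ 0 := by omega
  refine ⟨e, he0, M, K, Φ, hc, fun i j n => ?_, hdet⟩
  have h1 := heq i j n
  simp only [atPow] at h1
  rw [Pool.Agent.Y120.GH.expand_poly he0]
  simp only [Pool.Agent.Y120.GH.expand_poly he0]
  exact h1

theorem fam {r : ℕ} {T : Polynomial ℤ} {A : Fin r → Fin r → Polynomial ℤ} {h : Fin r → PowerSeries ℚ}
    (hG : GFamily T A h) {b : ℕ} (hb : 2 ≤ b) (δ : ℕ) : Pool.Agent.X120.GS.FamG δ h b := by
  obtain ⟨d, hTd, hAd, hqu⟩ := hG.regular_infty
  obtain ⟨B, a, M, h1, h2, h3⟩ := Pool.Agent.X120.GS.family_mainS hG.T_ne hG.ode hG.size hG.den (by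
    obtain ⟨C, hC⟩ := hG.galochkin
    refine ⟨C, fun m => ?_⟩
    obtain ⟨d, h1, h2, h3⟩ := hC m
    refine ⟨d, h1, h2, fun s hs i' j' => ?_⟩
    rw [← iter_eq]
    exact h3 s hs i' j') hTd hAd (qu_eq hqu) δ
  exact ⟨hG.size, B, a, M, h1, h2, h3 b hb⟩

section family
variable {r n : ℕ}

/-- The period matrix at `x = 1 / s`: the entries are the polynomials `P a b` in the `h_l(1 / s)`. -/
noncomputable def perMat (h : Fin r → PowerSeries ℚ) (P : Fin n → Fin n → MvPolynomial (Fin r) ℂ) (s : ℝ) :
    Matrix (Fin n) (Fin n) ℂ :=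
  Matrix.of fun a b => MvPolynomial.aeval
    (fun l => ((∑' m : ℕ, ((coeff m (h l) : ℚ) : ℝ) * (1 / s) ^ m : ℝ) : ℂ)) (P a b)

/-- the polynomials in more variables -/
noncomputable def more (P : Fin n → Fin n → MvPolynomial (Fin r) ℂ) : Fin n → Fin n → MvPolynomial (Option (Fin r)) ℂ :=
  fun a b => MvPolynomial.rename some (P a b)

theorem perMat_eq (h : Fin r → PowerSeries ℚ) (P : Fin n → Fin n → MvPolynomial (Fin r) ℂ) (s : ℝ) :
    perMat h P s = Pool.Agent.Y120.R.pM h (more P) s := by
  ext a b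
  show MvPolynomial.aeval _ (P a b) = MvPolynomial.aeval _ (MvPolynomial.rename some (P a b))
  rw [MvPolynomial.aeval_rename]
  rfl

/-- the value at `x = 1 / s` and at the matrix `Z` of a polynomial in the entries of a matrix over `ℂ[x]` -/
noncomputable def relAt (R : MvPolynomial (Fin n × Fin n) (Polynomial ℂ)) (s : ℝ) (Z : Matrix (Fin n) (Fin n) ℂ) : ℂ :=
  MvPolynomial.eval₂ (Polynomial.evalRingHom (1 / (s : ℂ))) (fun v => Z v.1 v.2) R

/-- `g P(x)` satisfies all polynomial relations over `ℂ[x]` which `P(x)` satisfies. -/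
def Preserves (h : Fin r → PowerSeries ℚ) (P : Fin n → Fin n → MvPolynomial (Fin r) ℂ)
    (g : Matrix (Fin n) (Fin n) ℂ) : Prop :=
  ∀ R : MvPolynomial (Fin n × Fin n) (Polynomial ℂ), (∀ᶠ s : ℝ in Filter.atTop, relAt R s (perMat h P s) = 0) →
    ∀ᶠ s : ℝ in Filter.atTop, relAt R s (g * perMat h P s) = 0

theorem preserves_iff (h : Fin r → PowerSeries ℚ) (P : Fin n → Fin n → MvPolynomial (Fin r) ℂ)
    (g : Matrix (Fin n) (Fin n) ℂ) : Preserves h P g ↔ Pool.Agent.Y123.GN.Prs h (more P) g := by
  unfold Preserves Pool.Agent.Y123.GN.Prs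
  simp only [perMat_eq]
  exact Iff.rfl

/-- The group of the matrices `g` such that `g` and `g⁻¹` preserve the relations. If `P` is a fundamental matrix of a linear
differential system over `ℂ(x)` this is its differential Galois group. -/
noncomputable def Gal (h : Fin r → PowerSeries ℚ) (P : Fin n → Fin n → MvPolynomial (Fin r) ℂ) :
    Subgroup (Matrix.GeneralLinearGroup (Fin n) ℂ) where
  carrier := {g | Preserves h P (g : Matrix (Fin n) (Fin n) ℂ) ∧
    Preserves h P ((g⁻¹ : Matrix.GeneralLinearGroup (Fin n) ℂ) : Matrix (Fin n) (Fin n) ℂ)}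
  mul_mem' := fun hg hg' => by
    simp only [Set.mem_ofPred_eq, preserves_iff] at hg hg' ⊢
    exact (Pool.Agent.Y123.GN.Gs h (more P)).mul_mem' hg hg'
  one_mem' := by
    simp only [Set.mem_ofPred_eq, preserves_iff]
    exact (Pool.Agent.Y123.GN.Gs h (more P)).one_mem'
  inv_mem' := fun hg => by
    simp only [Set.mem_ofPred_eq, preserves_iff] at hg ⊢
    exact (Pool.Agent.Y123.GN.Gs h (more P)).inv_mem' hg

theorem gal_eq (h : Fin r → PowerSeries ℚ) (P : Fin n → Fin n → MvPolynomial (Fin r) ℂ) :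
    Gal h P = Pool.Agent.Y123.GN.Gs h (more P) := by
  ext g
  show Preserves h P _ ∧ Preserves h P _ ↔ Pool.Agent.Y123.GN.Prs h (more P) _ ∧ Pool.Agent.Y123.GN.Prs h (more P) _
  rw [preserves_iff, preserves_iff]

end family

/-- A system of G-functions -/
structure GSystem where
  /-- the number of functions -/
  r : ℕ
  /-- the common denominator of the differential equations -/
  T : Polynomial ℤ
  /-- the matrix of the differential equations -/
  A : Fin r → Fin r → Polynomial ℤ
  /-- the functions -/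
  h : Fin r → PowerSeries ℚ
  /-- they are G-functions -/
  isG : GFamily T A h

/-- The periods of a variation of Hodge structure of rank `n` on the projective line without finitely many points, near `x = 0`. The period matrix is
`L(log (1 / x)) P(x)`, the entries of `P(x)` are polynomials of degree at most `e` in the G-functions, and the entries of `L(u)` are polynomials of degree at most
`e` in `u` (`L = 1` if the fibre over `x = 0` is good; `L(u) = exp(u M)` with a nilpotent matrix `M` if the monodromy around `x = 0` is unipotent). The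
monodromy is big: the symplectic group of a nondegenerate alternating form `B` is contained in the differential Galois group. -/
structure Periods (G : GSystem) (n e : ℕ) where
  /-- the polynomials in the G-functions -/
  P : Fin n → Fin n → MvPolynomial (Fin G.r) ℂ
  degP : ∀ a b, (P a b).totalDegree ≤ e
  /-- the factor with the logarithms -/
  L : Matrix (Fin n) (Fin n) (Polynomial ℂ)
  degL : ∀ a b, (L a b).natDegree ≤ e
  unitL : ∀ u : ℂ, IsUnit (L.map (Polynomial.eval u))
  /-- the alternating form -/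
  B : Matrix (Fin n) (Fin n) ℂ
  unitB : IsUnit B
  altB : Bᵀ = -B
  /-- big monodromy -/
  big : ∀ g : Matrix.GeneralLinearGroup (Fin n) ℂ,
    (g : Matrix (Fin n) (Fin n) ℂ) * B * (g : Matrix (Fin n) (Fin n) ℂ)ᵀ = B → g ∈ Gal G.h P
  /-- the column with the periods of the form of type `(w, 0)` -/
  c : Fin n

/-- the vector of the periods of the form of type `(w, 0)` for the fibre over `x = b^(-t)` -/
noncomputable def Periods.vec {G : GSystem} {n e : ℕ} (F : Periods G n e) (b t : ℕ) : Fin n → ℂ := fun a =>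
  (F.L.map (Polynomial.eval ((t : ℂ) * ((Real.log b : ℝ) : ℂ))) * perMat G.h F.P ((b : ℝ) ^ t)) a F.c

/-- a rational matrix as a complex matrix -/
def toC {n : ℕ} (M : Matrix (Fin n) (Fin n) ℚ) : Matrix (Fin n) (Fin n) ℂ := M.map fun x : ℚ => (x : ℂ)

/-- `H p = H^{p, w-p}`, `p ≤ w`, are the parts of a Hodge structure of weight `w` on `ℚ^n` with the first bilinear relation for the nondegenerate
alternating form `A`, for example a Hodge structure which is polarised by `A`. (The sum is direct because of the relation.) -/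
structure IsHodge {n : ℕ} (w : ℕ) (A : Matrix (Fin n) (Fin n) ℚ) (H : ℕ → Submodule ℂ (Fin n → ℂ)) : Prop where
  alt : A.transpose = -A
  nondeg : A.det ≠ 0
  span : (⨆ p : {p : ℕ // p ≤ w}, H p) = ⊤
  conj : ∀ p ≤ w, ∀ v ∈ H p, (fun i => star (v i)) ∈ H (w - p)
  orth : ∀ p ≤ w, ∀ r ≤ w, p + r ≠ w → ∀ v ∈ H p, ∀ u ∈ H r, dotProduct v (Matrix.mulVec (toC A) u) = 0

/-- The Hodge operator `Φ` is the multiplication by `p` on `H^{p, w-p}`. Matrices act on row vectors from the right. -/
def IsHodgeOperator {n : ℕ} (w : ℕ) (H : ℕ → Submodule ℂ (Fin n → ℂ)) (Φ : Matrix (Fin n) (Fin n) ℂ) : Prop :=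
  ∀ p ≤ w, ∀ v ∈ H p, Matrix.vecMul v Φ = (p : ℂ) • v

/-- There is a basis of eigenvectors (the rows of `B`) of `Φ₀` with integer eigenvalues. The Hodge operators (multiplication by `p` on the
parts `H^{p,q}`) of all Hodge structures are of this kind, also those of mixed Hodge structures (`I^{p,q}`). -/
def IsSplitOperator {n : ℕ} (Φ₀ : Matrix (Fin n) (Fin n) ℂ) : Prop :=
  ∃ (B : Matrix (Fin n) (Fin n) ℂ) (p : Fin n → ℤ), IsUnit B.det ∧ ∀ i, Matrix.vecMul (B i) Φ₀ = (p i : ℂ) • B i

/-- `H_i` are Hodge structures of weight `w_i` with forms `A_i`, whose parts of type `(w_i, 0)` are spanned by the period vectors over `x_i = b_i^(-t_i)`. -/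
def IsFibre {k e : ℕ} {G : Fin k → GSystem} {n : Fin k → ℕ} (F : ∀ i, Periods (G i) (n i) e) (w b t : Fin k → ℕ)
    (A : ∀ i, Matrix (Fin (n i)) (Fin (n i)) ℚ) (H : ∀ i, ℕ → Submodule ℂ (Fin (n i) → ℂ)) : Prop :=
  ∀ i, 0 < w i ∧ IsHodge (w i) (A i) (H i) ∧ (F i).vec (b i) (t i) ≠ 0 ∧
    H i (w i) = Submodule.span ℂ {(F i).vec (b i) (t i)}

end Pool.Agent.X120.BM
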