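import Pool.Agent.X120.BM.Lie

/-!
# Hodge forms on products of fibres with a fixed structure
-/

set_option autoImplicit false
set_option linter.unusedSectionVars false

open Matrix

namespace Pool.Agent.X120.BM

section
variable {n₀ k r m : ℕ} {n : Fin k → ℕ}

/-- The coordinates of multilinear forms on `V_0^r × V^m`, `V = V_1 ⊕ … ⊕ V_k`, with values in `K` -/
abbrev Form (n₀ r : ℕ) {k : ℕ} (n : Fin k → ℕ) (m : ℕ) (K : Type) : Type :=
  (Fin r → Fin n₀) → (Fin m → Σ i, Fin (n i)) → K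

/-- a rational form as a form over `K` -/
def castForm (K : Type) [Field K] [Algebra ℚ K] (T : Form n₀ r n m ℚ) : Form n₀ r n m K := fun a I => algebraMap ℚ K (T a I)

/-- a rational form on `V_0^r` as a form over `K` -/
def castForm₀ (K : Type) [Field K] [Algebra ℚ K] (v : (Fin r → Fin n₀) → ℚ) : (Fin r → Fin n₀) → K := fun a => algebraMap ℚ K (v a)

/-- The derivation: the sum of the forms which one gets by applying the operator `(Φ₀, Φ_1, …, Φ_k)` to one of the variables -/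
noncomputable def derivation (Φ₀ : Matrix (Fin n₀) (Fin n₀) ℂ) (Φ : ∀ i, Matrix (Fin (n i)) (Fin (n i)) ℂ)
    (T : Form n₀ r n m ℂ) : Form n₀ r n m ℂ := fun a I =>
  (∑ l, ∑ y, Φ₀ (a l) y * T (Function.update a l y) I) +
    ∑ l, ∑ y, Matrix.blockDiagonal' Φ (I l) y * T a (Function.update I l y)

/-- `T` is a form on `V_0^r × V_(τ(1)) × … × V_(τ(m))` and a Hodge form of type `c`: the Hodge operator acts as multiplication by `c`.
Equivalently it vanishes on eigenvectors of the Hodge operators unless the sum of the eigenvalues is `c`. -/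
def IsHodgeForm (Φ₀ : Matrix (Fin n₀) (Fin n₀) ℂ) (Φ : ∀ i, Matrix (Fin (n i)) (Fin (n i)) ℂ) (τ : Fin m → Fin k) (c : ℤ)
    (T : Form n₀ r n m ℚ) : Prop :=
  (∀ a I, T a I ≠ 0 → ∀ l, (I l).1 = τ l) ∧ derivation Φ₀ Φ (castForm ℂ T) = (c : ℂ) • castForm ℂ T

/-- a Hodge form of type `q` on `V_0^r` -/
def IsHodgeForm₀ (Φ₀ : Matrix (Fin n₀) (Fin n₀) ℂ) (q : ℤ) (v : (Fin r → Fin n₀) → ℚ) : Prop :=
  ∀ a, ∑ l, ∑ y, Φ₀ (a l) y * castForm₀ ℂ v (Function.update a l y) = (q : ℂ) * castForm₀ ℂ v a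

/-- The product `A_(c 1) ⊗ A_(c 2) ⊗ …` of forms `A_i` over a matching `e` of the variables -/
def pairing (A : ∀ i, Matrix (Fin (n i)) (Fin (n i)) ℚ) {s : ℕ} (e : Fin s × Fin 2 ≃ Fin m) (c : Fin s → Fin k) :
    (Fin m → Σ i, Fin (n i)) → ℚ :=
  fun I => ∏ l, if (I (e (l, 0))).1 = c l then Matrix.blockDiagonal' A (I (e (l, 0))) (I (e (l, 1))) else 0

/-- the products `v ⊗ A ⊗ … ⊗ A`, of type `c`, of a Hodge form `v` on `V_0^r` and of the `A_i` (`A_i` is of type `w_i`), over matchings of the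
variables which respect `τ` -/
def products (Φ₀ : Matrix (Fin n₀) (Fin n₀) ℂ) (w : Fin k → ℕ) (A : ∀ i, Matrix (Fin (n i)) (Fin (n i)) ℚ)
    (τ : Fin m → Fin k) (c : ℤ) : Set (Form n₀ r n m ℚ) :=
  {S | ∃ (s : ℕ) (e : Fin s × Fin 2 ≃ Fin m) (c' : Fin s → Fin k) (v : (Fin r → Fin n₀) → ℚ),
    (∀ l, c' l = τ (e (l, 0)) ∧ c' l = τ (e (l, 1))) ∧
    IsHodgeForm₀ Φ₀ (c - ∑ l, (w (c' l) : ℤ)) v ∧ S = fun a I => v a * pairing A e c' I}

/-- `T(v_1, …; u_1, …)` after the change of variables by `g₀`, `g_i` -/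
def transport {K : Type} [Field K] (g₀ : Matrix (Fin n₀) (Fin n₀) K) (g : ∀ i, Matrix (Fin (n i)) (Fin (n i)) K)
    (T : Form n₀ r n m K) : Form n₀ r n m K := fun a I =>
  ∑ b : Fin r → Fin n₀, ∑ J : Fin m → Σ i, Fin (n i),
    (∏ l, g₀ (a l) (b l)) * (∏ l, Matrix.blockDiagonal' g (I l) (J l)) * T b J

/-- the same for forms on `V_0^r` -/
def transport₀ {K : Type} [Field K] (g₀ : Matrix (Fin n₀) (Fin n₀) K) (v : (Fin r → Fin n₀) → K) : (Fin r → Fin n₀) → K := fun a =>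
  ∑ b : Fin r → Fin n₀, (∏ l, g₀ (a l) (b l)) * v b

end

section
variable {n₀ k : ℕ} {n : Fin k → ℕ}

/-- All Hodge forms on the `V_0^r × V_(τ(1)) × … × V_(τ(m))` are combinations of products of Hodge forms on the `V_0^r` and of the `A_i`. -/
def AllGenerated (Φ₀ : Matrix (Fin n₀) (Fin n₀) ℂ) (w : Fin k → ℕ) (A : ∀ i, Matrix (Fin (n i)) (Fin (n i)) ℚ)
    (Φ : ∀ i, Matrix (Fin (n i)) (Fin (n i)) ℂ) : Prop :=
  ∀ (r m : ℕ) (τ : Fin m → Fin k) (c : ℤ) (T : Form n₀ r n m ℚ), IsHodgeForm Φ₀ Φ τ c T →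
    T ∈ Submodule.span ℚ (products Φ₀ w A τ c)

theorem cast_eq {r m : ℕ} (T : Form n₀ r n m ℚ) (a : Fin r → Fin n₀) :
    castForm ℂ T a = Pool.Agent.X120.HG.cst (T a) := by
  funext I
  exact eq_ratCast (algebraMap ℚ ℂ) _

theorem cast0_eq {r : ℕ} (v : (Fin r → Fin n₀) → ℚ) : castForm₀ ℂ v = Pool.Agent.X120.HG.cst v := by
  funext a
  exact eq_ratCast (algebraMap ℚ ℂ) _

theorem der_iff {r m : ℕ} {Φ₀ : Matrix (Fin n₀) (Fin n₀) ℂ} {Φ : ∀ i, Matrix (Fin (n i)) (Fin (n i)) ℂ} {c : ℂ}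
    {T : Form n₀ r n m ℂ} : derivation Φ₀ Φ T = c • T ↔
      ∀ a, Pool.Agent.X120.HG.Dt ((Φ₀, Φ) : Pool.Agent.X120.HG.TM n₀ n ℂ) T a = c • T a := by
  constructor
  · intro h a
    funext I
    rw [Pool.Agent.X120.HG.Dt_apply]
    exact congrFun (congrFun h a) I
  · intro h
    funext a I
    have h1 := congrFun (h a) I
    rw [Pool.Agent.X120.HG.Dt_apply] at h1
    exact h1

theorem der0_iff {r : ℕ} {Φ₀ : Matrix (Fin n₀) (Fin n₀) ℂ} {q : ℤ} {v : (Fin r → Fin n₀) → ℚ} :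
    IsHodgeForm₀ Φ₀ q v ↔ Pool.Agent.X120.HG.dr Φ₀ (Pool.Agent.X120.HG.cst v) = (q : ℂ) • Pool.Agent.X120.HG.cst v := by
  rw [← cast0_eq]
  constructor
  · intro h
    funext a
    exact h a
  · intro h a
    exact congrFun h a

/-- **Generation.** -/
theorem generated_of {Φ₀ : Matrix (Fin n₀) (Fin n₀) ℂ} {w : Fin k → ℕ} {A : ∀ i, Matrix (Fin (n i)) (Fin (n i)) ℚ}
    {H : ∀ i, ℕ → Submodule ℂ (Fin (n i) → ℂ)} (hH : ∀ i, IsHodge (w i) (A i) (H i))
    (h : Pool.Agent.X120.HG.RG Φ₀ w A H) {Φ : ∀ i, Matrix (Fin (n i)) (Fin (n i)) ℂ}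
    (hop : ∀ i, IsHodgeOperator (w i) (H i) (Φ i)) : AllGenerated Φ₀ w A Φ := by
  intro r m τ c T hT
  have hg := Pool.Agent.X120.HG.allgen_of (fun i => (hH i).hs) h
  have h1 := hg Φ hop r m τ T c (fun a I => hT.1 a I) (fun a => by
    have h2 := der_iff.1 hT.2 a
    rw [cast_eq] at h2
    have h3 : castForm ℂ T = fun a => Pool.Agent.X120.HG.cst (T a) := funext fun a => cast_eq T a
    rw [h3] at h2
    exact h2)
  refine Submodule.span_mono ?_ h1
  rintro S ⟨v, P, ⟨s, e, c', hc', rfl⟩, hv, rfl⟩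
  refine ⟨s, e, c', v, hc', ?_, rfl⟩
  rw [der0_iff, ← Pool.Agent.X120.HG.rh_mulVec]
  have hν : (∑ l, (w (τ l) : ℂ)) / 2 = ((∑ l, (w (c' l) : ℤ) : ℤ) : ℂ) := by
    rw [← Equiv.sum_comp e, Fintype.sum_prod_type]
    have h3 : ∀ l : Fin s, ∑ ε : Fin 2, (w (τ (e (l, ε))) : ℂ) = 2 * (w (c' l) : ℂ) := by
      intro l
      rw [Fin.sum_univ_two, ← (hc' l).1, ← (hc' l).2]
      ring
    rw [Finset.sum_congr rfl fun l _ => h3 l, ← Finset.mul_sum]
    push_cast
    ring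
  rw [hν] at hv
  push_cast at hv ⊢
  exact hv

end

section
variable {n₀ k r m : ℕ} {n : Fin k → ℕ} {K : Type} [Field K]

theorem transport_add (g₀ : Matrix (Fin n₀) (Fin n₀) K) (g : ∀ i, Matrix (Fin (n i)) (Fin (n i)) K)
    (T S : Form n₀ r n m K) : transport g₀ g (T + S) = transport g₀ g T + transport g₀ g S := by
  funext a I
  simp only [transport, Pi.add_apply, mul_add, Finset.sum_add_distrib]

theorem transport_smul (g₀ : Matrix (Fin n₀) (Fin n₀) K) (g : ∀ i, Matrix (Fin (n i)) (Fin (n i)) K) (c : K)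
    (T : Form n₀ r n m K) : transport g₀ g (c • T) = c • transport g₀ g T := by
  funext a I
  simp only [transport, Pi.smul_apply, smul_eq_mul, Finset.mul_sum]
  exact Finset.sum_congr rfl fun b _ => Finset.sum_congr rfl fun J _ => by ring

theorem transport_zero (g₀ : Matrix (Fin n₀) (Fin n₀) K) (g : ∀ i, Matrix (Fin (n i)) (Fin (n i)) K) :
    transport g₀ g (0 : Form n₀ r n m K) = 0 := by
  funext a I
  simp [transport]

variable [Algebra ℚ K]

theorem castForm_add (T S : Form n₀ r n m ℚ) : castForm K (T + S) = castForm K T + castForm K S := by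
  funext a I
  exact map_add (algebraMap ℚ K) _ _

theorem castForm_smul (q : ℚ) (T : Form n₀ r n m ℚ) : castForm K (q • T) = algebraMap ℚ K q • castForm K T := by
  funext a I
  exact map_mul (algebraMap ℚ K) _ _

theorem castForm_zero : castForm K (0 : Form n₀ r n m ℚ) = 0 := by
  funext a I
  simp [castForm]

theorem fm_actK {B B' g : ∀ i, Matrix (Fin (n i)) (Fin (n i)) K} {μ : Fin k → K} (h : ∀ i, g i * B i * (g i)ᵀ = μ i • B' i)
    (c : Fin k) : blockDiagonal' g * Pool.Agent.X120.HG.fm K B c * (blockDiagonal' g)ᵀ = μ c • Pool.Agent.X120.HG.fm K B' c := by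
  rw [Pool.Agent.X120.HG.fm_eq, Pool.Agent.X120.HG.fm_eq, blockDiagonal'_transpose, ← blockDiagonal'_mul, ← blockDiagonal'_mul,
    ← blockDiagonal'_smul]
  congr 1
  funext i
  rw [Pi.smul_apply]
  by_cases hc : i = c
  · subst hc
    rw [if_pos rfl, if_pos rfl]
    exact h i
  · rw [if_neg hc, if_neg hc, Matrix.mul_zero, Matrix.zero_mul, smul_zero]

theorem cast_pairing (A : ∀ i, Matrix (Fin (n i)) (Fin (n i)) ℚ) {s : ℕ} (e : Fin s × Fin 2 ≃ Fin m) (c : Fin s → Fin k)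
    (I : Fin m → Σ i, Fin (n i)) : algebraMap ℚ K (pairing A e c I) =
      ∏ l, Pool.Agent.X120.HG.fm K (fun i => (A i).map (algebraMap ℚ K)) (c l) (I (e (l, 0))) (I (e (l, 1))) := by
  unfold pairing
  rw [map_prod]
  refine Finset.prod_congr rfl fun l _ => ?_
  show _ = if (I (e (l, 0))).1 = c l then _ else _
  split_ifs
  · have h1 : ∀ x y : Σ i, Fin (n i), algebraMap ℚ K (blockDiagonal' A x y) =
        blockDiagonal' (fun i => (A i).map (algebraMap ℚ K)) x y := by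
      rintro ⟨i, x⟩ ⟨j, y⟩
      by_cases hij : i = j
      · subst hij
        rw [blockDiagonal'_apply_eq, blockDiagonal'_apply_eq]
        rfl
      · rw [blockDiagonal'_apply_ne _ _ _ hij, blockDiagonal'_apply_ne _ _ _ hij, map_zero]
    exact h1 _ _
  · exact map_zero _

/-- **the transport of a product** -/
theorem transport_product {A : ∀ i, Matrix (Fin (n i)) (Fin (n i)) ℚ} {g₀ : Matrix (Fin n₀) (Fin n₀) K}
    {g : ∀ i, Matrix (Fin (n i)) (Fin (n i)) K} {μ : Fin k → K}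
    (h : ∀ i, g i * (A i).map (algebraMap ℚ K) * (g i)ᵀ = μ i • (A i).map (algebraMap ℚ K))
    {s : ℕ} (e : Fin s × Fin 2 ≃ Fin m) (c : Fin s → Fin k) (v : (Fin r → Fin n₀) → ℚ) :
    transport g₀ g (castForm K fun a I => v a * pairing A e c I) =
      fun a I => transport₀ g₀ (castForm₀ K v) a * ((∏ l, μ (c l)) * algebraMap ℚ K (pairing A e c I)) := by
  classical
  funext a I
  -- the second factor
  have key : ∑ J : Fin m → Σ i, Fin (n i), (∏ l, blockDiagonal' g (I l) (J l)) * algebraMap ℚ K (pairing A e c J) =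
      (∏ l, μ (c l)) * algebraMap ℚ K (pairing A e c I) := by
    set M := blockDiagonal' g with hM
    set f : Fin s → (Σ i, Fin (n i)) → (Σ i, Fin (n i)) → K := fun l x y =>
      Pool.Agent.X120.HG.fm K (fun i => (A i).map (algebraMap ℚ K)) (c l) x y with hf
    have e1 : ∀ J : Fin m → Σ i, Fin (n i), (∏ l, M (I l) (J l)) * algebraMap ℚ K (pairing A e c J) =
        ∏ l, (M (I (e (l, 0))) (J (e (l, 0))) * M (I (e (l, 1))) (J (e (l, 1))) * f l (J (e (l, 0))) (J (e (l, 1)))) := by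
      intro J
      rw [cast_pairing]
      have h1 : ∏ l, M (I l) (J l) = ∏ l, (M (I (e (l, 0))) (J (e (l, 0))) * M (I (e (l, 1))) (J (e (l, 1)))) := by
        rw [← Equiv.prod_comp e, Fintype.prod_prod_type]
        refine Finset.prod_congr rfl fun l _ => ?_
        rw [Fin.prod_univ_two]
      rw [h1, ← Finset.prod_mul_distrib]
    let E : (Fin m → Σ i, Fin (n i)) ≃ (Fin s → (Σ i, Fin (n i)) × (Σ i, Fin (n i))) :=
      { toFun := fun J l => (J (e (l, 0)), J (e (l, 1)))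
        invFun := fun q l => if (e.symm l).2 = 0 then (q (e.symm l).1).1 else (q (e.symm l).1).2
        left_inv := fun J => by
          funext l
          obtain ⟨⟨l', a⟩, rfl⟩ := e.surjective l
          fin_cases a <;> simp
        right_inv := fun q => by
          funext l
          simp }
    have e2 : ∑ J : Fin m → Σ i, Fin (n i),
        ∏ l, (M (I (e (l, 0))) (J (e (l, 0))) * M (I (e (l, 1))) (J (e (l, 1))) * f l (J (e (l, 0))) (J (e (l, 1)))) =
        ∏ l, ∑ p : (Σ i, Fin (n i)) × (Σ i, Fin (n i)), M (I (e (l, 0))) p.1 * M (I (e (l, 1))) p.2 * f l p.1 p.2 := by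
      rw [Finset.prod_univ_sum, Fintype.piFinset_univ]
      exact Fintype.sum_equiv E _ _ fun J => rfl
    rw [Finset.sum_congr rfl fun J _ => e1 J, e2, cast_pairing, ← Finset.prod_mul_distrib]
    refine Finset.prod_congr rfl fun l _ => ?_
    have h3 := congrFun (congrFun (fm_actK h (c l)) (I (e (l, 0)))) (I (e (l, 1)))
    rw [Matrix.smul_apply, smul_eq_mul, Matrix.mul_apply] at h3
    rw [← h3, Fintype.sum_prod_type, Finset.sum_comm]
    refine Finset.sum_congr rfl fun y _ => ?_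
    rw [Matrix.mul_apply, Finset.sum_mul]
    refine Finset.sum_congr rfl fun x _ => ?_
    rw [Matrix.transpose_apply]
    ring
  rw [← key]
  unfold transport transport₀ castForm castForm₀
  rw [Finset.sum_mul]
  refine Finset.sum_congr rfl fun b _ => ?_
  rw [Finset.mul_sum]
  refine Finset.sum_congr rfl fun J _ => ?_
  rw [map_mul]
  ring

end

section
variable {n₀ k r m : ℕ} {n : Fin k → ℕ}

/-- products of Hodge forms are Hodge forms -/
theorem product_hodge {A : ∀ i, Matrix (Fin (n i)) (Fin (n i)) ℚ} {Φ₀' : Matrix (Fin n₀) (Fin n₀) ℂ}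
    {Φ : ∀ i, Matrix (Fin (n i)) (Fin (n i)) ℂ} {w : Fin k → ℕ}
    (hΦ : ∀ i, Φ i * Pool.Agent.X120.HG.cq (A i) + Pool.Agent.X120.HG.cq (A i) * (Φ i)ᵀ = (w i : ℂ) • Pool.Agent.X120.HG.cq (A i))
    {τ : Fin m → Fin k} {c : ℤ} {s : ℕ} (e : Fin s × Fin 2 ≃ Fin m) (c' : Fin s → Fin k)
    (hc' : ∀ l, c' l = τ (e (l, 0)) ∧ c' l = τ (e (l, 1))) {v' : (Fin r → Fin n₀) → ℚ}
    (hv' : IsHodgeForm₀ Φ₀' (c - ∑ l, (w (c' l) : ℤ)) v') :
    IsHodgeForm Φ₀' Φ τ c (fun a I => v' a * pairing A e c' I) := by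
  refine ⟨?_, der_iff.2 ?_⟩
  · intro a I hI
    have h1 : Pool.Agent.X120.HG.pq A e c' I ≠ 0 := right_ne_zero_of_mul (a := v' a) hI
    intro l
    obtain ⟨⟨l', ε⟩, rfl⟩ := e.surjective l
    have h3 := Pool.Agent.X120.HG.pq_type h1 l'
    have h4 : ε = 0 ∨ ε = 1 := by
      fin_cases ε
      · exact Or.inl rfl
      · exact Or.inr rfl
    rcases h4 with rfl | rfl
    · rw [h3.1, (hc' l').1]
    · rw [h3.2, (hc' l').2]
  · intro a
    funext I
    rw [Pool.Agent.X120.HG.Dt_apply]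
    rw [der0_iff] at hv'
    set N : ℤ := ∑ l, (w (c' l) : ℤ) with hN
    set T : Form n₀ r n m ℚ := fun a I => v' a * pairing A e c' I with hT
    have e1 : (fun a => castForm ℂ T a I) = (Pool.Agent.X120.HG.cst (Pool.Agent.X120.HG.pq A e c') I) • Pool.Agent.X120.HG.cst v' := by
      funext b
      show algebraMap ℚ ℂ (v' b * pairing A e c' I) = ((Pool.Agent.X120.HG.pq A e c' I : ℚ) : ℂ) * ((v' b : ℚ) : ℂ)
      rw [eq_ratCast]
      push_cast
      exact mul_comm _ _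
    have e2 : castForm ℂ T a = ((v' a : ℚ) : ℂ) • Pool.Agent.X120.HG.cst (Pool.Agent.X120.HG.pq A e c') := by
      funext J
      show algebraMap ℚ ℂ (v' a * pairing A e c' J) = ((v' a : ℚ) : ℂ) * ((Pool.Agent.X120.HG.pq A e c' J : ℚ) : ℂ)
      rw [eq_ratCast]
      push_cast
      rfl
    have e3 : Pool.Agent.X120.HG.dr (blockDiagonal' Φ) (Pool.Agent.X120.HG.cst (Pool.Agent.X120.HG.pq A e c')) =
        (N : ℂ) • Pool.Agent.X120.HG.cst (Pool.Agent.X120.HG.pq A e c') := by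
      rw [Pool.Agent.X120.HG.cst_pq, Pool.Agent.X120.HG.dr_mat hΦ, hN]
      push_cast
      rfl
    show Pool.Agent.X120.HG.dr Φ₀' (fun a => castForm ℂ T a I) a +
        Pool.Agent.X120.HG.dr (blockDiagonal' Φ) (castForm ℂ T a) I = (c : ℂ) * castForm ℂ T a I
    have e4 : castForm ℂ T a I = ((v' a : ℚ) : ℂ) * Pool.Agent.X120.HG.cst (Pool.Agent.X120.HG.pq A e c') I := congrFun e2 I
    rw [e1, e4, e2, Pool.Agent.X120.HG.dr_smul, hv', Pool.Agent.X120.HG.dr_smul, e3]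
    show Pool.Agent.X120.HG.cst (Pool.Agent.X120.HG.pq A e c') I * (((c - N : ℤ) : ℂ) * ((v' a : ℚ) : ℂ)) +
        ((v' a : ℚ) : ℂ) * ((N : ℂ) * Pool.Agent.X120.HG.cst (Pool.Agent.X120.HG.pq A e c') I) =
      (c : ℂ) * (((v' a : ℚ) : ℂ) * Pool.Agent.X120.HG.cst (Pool.Agent.X120.HG.pq A e c') I)
    push_cast
    ring

theorem hodgeForm_add {Φ₀ : Matrix (Fin n₀) (Fin n₀) ℂ} {Φ : ∀ i, Matrix (Fin (n i)) (Fin (n i)) ℂ} {τ : Fin m → Fin k} {c : ℤ}
    {T S : Form n₀ r n m ℚ} (hT : IsHodgeForm Φ₀ Φ τ c T) (hS : IsHodgeForm Φ₀ Φ τ c S) : IsHodgeForm Φ₀ Φ τ c (T + S) := by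
  refine ⟨fun a I hI => ?_, ?_⟩
  · by_cases h : T a I = 0
    · refine hS.1 a I fun h' => hI ?_
      show T a I + S a I = 0
      rw [h, h', add_zero]
    · exact hT.1 a I h
  · have h1 : derivation Φ₀ Φ (castForm ℂ T + castForm ℂ S) = derivation Φ₀ Φ (castForm ℂ T) + derivation Φ₀ Φ (castForm ℂ S) := by
      funext a I
      simp only [derivation, Pi.add_apply, mul_add, Finset.sum_add_distrib]
      ring
    rw [castForm_add, h1, hT.2, hS.2, smul_add]

theorem hodgeForm_smul {Φ₀ : Matrix (Fin n₀) (Fin n₀) ℂ} {Φ : ∀ i, Matrix (Fin (n i)) (Fin (n i)) ℂ} {τ : Fin m → Fin k} {c : ℤ}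
    (q : ℚ) {T : Form n₀ r n m ℚ} (hT : IsHodgeForm Φ₀ Φ τ c T) : IsHodgeForm Φ₀ Φ τ c (q • T) := by
  refine ⟨fun a I hI => hT.1 a I (right_ne_zero_of_mul (a := q) hI), ?_⟩
  have h1 : ∀ z : ℂ, derivation Φ₀ Φ (z • castForm ℂ T) = z • derivation Φ₀ Φ (castForm ℂ T) := by
    intro z
    funext a I
    simp only [derivation, Pi.smul_apply, smul_eq_mul, mul_add, Finset.mul_sum]
    congr 1
    · exact Finset.sum_congr rfl fun l _ => Finset.sum_congr rfl fun y _ => by ring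
    · exact Finset.sum_congr rfl fun l _ => Finset.sum_congr rfl fun y _ => by ring
  rw [castForm_smul, h1, hT.2, smul_comm]

theorem hodgeForm_zero {Φ₀ : Matrix (Fin n₀) (Fin n₀) ℂ} {Φ : ∀ i, Matrix (Fin (n i)) (Fin (n i)) ℂ} {τ : Fin m → Fin k} {c : ℤ} :
    IsHodgeForm Φ₀ Φ τ c (0 : Form n₀ r n m ℚ) := by
  refine ⟨fun a I hI => absurd rfl hI, ?_⟩
  rw [castForm_zero, smul_zero]
  funext a I
  simp [derivation]

end

end Pool.Agent.X120.BM
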