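import Pool.Agent.X120.BM.Lie

/-!
# Structures of small level
-/

set_option autoImplicit false
set_option linter.unusedSectionVars false

open Matrix

namespace Pool.Agent.X120.BM

open Pool.Agent.X120.HG (mu IsSp hv cq ph opB adp)

section span
variable {m : ℕ}

/-- the elements `A v vᵀ` span the symplectic Lie algebra -/
theorem sp_of_mu {A : Matrix (Fin m) (Fin m) ℚ} (hA : Aᵀ = -A) (hAd : A.det ≠ 0)
    {P : Submodule ℚ (Matrix (Fin m) (Fin m) ℚ)} (hmu : ∀ v, mu A v ∈ P)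
    {X : Matrix (Fin m) (Fin m) ℚ} (hX : IsSp A X) : X ∈ P := by
  obtain ⟨S, hS, rfl⟩ := Pool.Agent.X120.HG.symm_sp hA hAd hX
  have h1 : ∀ i j : Fin m, A * (Matrix.single i j (1 : ℚ) + Matrix.single j i 1) ∈ P := by
    intro i j
    have e1 : A * (Matrix.single i j (1 : ℚ) + Matrix.single j i 1) =
        mu A (Pi.single i 1 + Pi.single j 1) - mu A (Pi.single i 1) - mu A (Pi.single j 1) := by
      unfold mu
      rw [← Matrix.mul_sub, ← Matrix.mul_sub]
      congr 1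
      have e2 : ∀ a b : Fin m, Matrix.single a b (1 : ℚ) = Matrix.vecMulVec (Pi.single a 1) (Pi.single b 1) := by
        intro a b
        ext x y
        simp only [Matrix.single_apply, Matrix.vecMulVec_apply, Pi.single_apply]
        by_cases h1 : a = x <;> by_cases h2 : b = y <;> simp [h1, h2, eq_comm]
      rw [e2, e2, Matrix.add_vecMulVec, Matrix.vecMulVec_add, Matrix.vecMulVec_add]
      abel
    rw [e1]
    exact P.sub_mem (P.sub_mem (hmu _) (hmu _)) (hmu _)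
  have h2 : A * S = ∑ i, ∑ j, (S i j / 2) • (A * (Matrix.single i j (1 : ℚ) + Matrix.single j i 1)) := by
    have h3 : S = ∑ i, ∑ j, (S i j / 2) • (Matrix.single i j (1 : ℚ) + Matrix.single j i 1) := by
      have e1 : S = ∑ i, ∑ j, Matrix.single i j (S i j) := Matrix.matrix_eq_sum_single S
      have e2 : (∑ i, ∑ j, (S i j / 2) • (Matrix.single i j (1 : ℚ) + Matrix.single j i 1)) =
          (∑ i, ∑ j, (S i j / 2) • Matrix.single i j (1 : ℚ)) + ∑ i, ∑ j, (S i j / 2) • Matrix.single j i (1 : ℚ) := by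
        simp only [smul_add, Finset.sum_add_distrib]
      have e3 : (∑ i, ∑ j, (S i j / 2) • Matrix.single j i (1 : ℚ)) = ∑ i, ∑ j, (S i j / 2) • Matrix.single i j (1 : ℚ) := by
        rw [Finset.sum_comm]
        refine Finset.sum_congr rfl fun i _ => Finset.sum_congr rfl fun j _ => ?_
        have e4 : S j i = S i j := by
          conv_lhs => rw [← hS, Matrix.transpose_apply]
        rw [e4]
      rw [e2, e3, ← Finset.sum_add_distrib]
      conv_lhs => rw [e1]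
      refine Finset.sum_congr rfl fun i _ => ?_
      rw [← Finset.sum_add_distrib]
      refine Finset.sum_congr rfl fun j _ => ?_
      rw [← add_smul, add_halves, Matrix.smul_single, smul_eq_mul, mul_one]
    conv_lhs => rw [h3]
    rw [Finset.mul_sum]
    refine Finset.sum_congr rfl fun i _ => ?_
    rw [Finset.mul_sum]
    refine Finset.sum_congr rfl fun j _ => ?_
    rw [Matrix.mul_smul]
  rw [h2]
  exact P.sum_mem fun i _ => P.sum_mem fun j _ => P.smul_mem _ (h1 i j)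

/-- a symmetric matrix with zero quadratic form -/
theorem symm_zero {S : Matrix (Fin m) (Fin m) ℚ} (hS : Sᵀ = S) (h : ∀ v : Fin m → ℚ, v ⬝ᵥ (S *ᵥ v) = 0) : S = 0 := by
  ext i j
  have h1 := h (Pi.single i 1)
  have h2 := h (Pi.single j 1)
  have h3 := h (Pi.single i 1 + Pi.single j 1)
  rw [Matrix.mulVec_add, dotProduct_add, add_dotProduct, add_dotProduct] at h3
  rw [h1, h2, Matrix.mulVec_single_one, Matrix.mulVec_single_one, single_one_dotProduct, single_one_dotProduct] at h3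
  have h4 : S j i = S i j := by
    conv_lhs => rw [← hS, Matrix.transpose_apply]
  have h5 : S.col i j = S j i := rfl
  have h6 : S.col j i = S i j := rfl
  rw [h5, h6, h4] at h3
  show S i j = 0
  linarith

/-- an ideal of the symplectic Lie algebra which is not zero -/
theorem ideal_sp {A : Matrix (Fin m) (Fin m) ℚ} (hA : Aᵀ = -A) (hAd : A.det ≠ 0)
    {P : Submodule ℚ (Matrix (Fin m) (Fin m) ℚ)} (hP : ∀ v, ∀ X ∈ P, mu A v * X - X * mu A v ∈ P)
    {S : Matrix (Fin m) (Fin m) ℚ} (hS : Sᵀ = S) (hS0 : S ≠ 0) (hSP : A * S ∈ P)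
    {X : Matrix (Fin m) (Fin m) ℚ} (hX : IsSp A X) : X ∈ P := by
  have hAu : IsUnit A.det := isUnit_iff_ne_zero.2 hAd
  have hskew : ∀ u v : Fin m → ℚ, v ⬝ᵥ (A *ᵥ u) = -(u ⬝ᵥ (A *ᵥ v)) := by
    intro u v
    rw [Matrix.dotProduct_mulVec, ← Matrix.mulVec_transpose, hA, Matrix.neg_mulVec, neg_dotProduct, dotProduct_comm]
  have hself : ∀ u : Fin m → ℚ, u ⬝ᵥ (A *ᵥ u) = 0 := by
    intro u
    have := hskew u u
    linarith
  have hvv : ∀ (a b c d : Fin m → ℚ) (M : Matrix (Fin m) (Fin m) ℚ),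
      Matrix.vecMulVec a b * M * Matrix.vecMulVec c d = (b ⬝ᵥ (M *ᵥ c)) • Matrix.vecMulVec a d := by
    intro a b c d M
    rw [Matrix.mul_assoc, Matrix.mul_vecMulVec, Matrix.vecMulVec_mul_vecMulVec, Matrix.vecMulVec_smul]
  set q : (Fin m → ℚ) → ℚ := fun v => v ⬝ᵥ ((A * S * A) *ᵥ v) with hq
  have hmm : ∀ v, mu A v * mu A v = 0 := by
    intro v
    unfold mu
    calc A * Matrix.vecMulVec v v * (A * Matrix.vecMulVec v v) = A * (Matrix.vecMulVec v v * A * Matrix.vecMulVec v v) := by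
          simp only [Matrix.mul_assoc]
      _ = 0 := by rw [hvv, hself, zero_smul, Matrix.mul_zero]
  have hmXm : ∀ v, mu A v * (A * S) * mu A v = q v • mu A v := by
    intro v
    unfold mu
    calc A * Matrix.vecMulVec v v * (A * S) * (A * Matrix.vecMulVec v v) =
          A * (Matrix.vecMulVec v v * (A * S * A) * Matrix.vecMulVec v v) := by simp only [Matrix.mul_assoc]
      _ = _ := by rw [hvv, Matrix.mul_smul]
  have h1 : ∀ v, q v ≠ 0 → mu A v ∈ P := by
    intro v hv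
    have h2 := hP v _ (hP v _ hSP)
    have h3 : mu A v * (mu A v * (A * S) - A * S * mu A v) - (mu A v * (A * S) - A * S * mu A v) * mu A v =
        (-2 * q v) • mu A v := by
      rw [Matrix.mul_sub, Matrix.sub_mul, ← Matrix.mul_assoc, hmm, Matrix.zero_mul, ← Matrix.mul_assoc, hmXm,
        Matrix.mul_assoc (A * S), hmm, Matrix.mul_zero, mul_smul, neg_smul, two_smul]
      abel
    rw [h3] at h2
    have h4 := P.smul_mem ((-2 * q v)⁻¹) h2
    rw [smul_smul, inv_mul_cancel₀ (mul_ne_zero (by norm_num) hv), one_smul] at h4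
    exact h4
  obtain ⟨u, hu⟩ : ∃ u, q u ≠ 0 := by
    by_contra h0
    push Not at h0
    have h2 : A * S * A = 0 := by
      refine symm_zero ?_ h0
      rw [Matrix.transpose_mul, Matrix.transpose_mul, hA, hS, Matrix.mul_neg, neg_mul_neg, Matrix.mul_assoc]
    apply hS0
    have hAi' : A⁻¹ * A = 1 := Matrix.nonsing_inv_mul _ hAu
    have hAi : A * A⁻¹ = 1 := Matrix.mul_nonsing_inv _ hAu
    calc S = A⁻¹ * A * S * (A * A⁻¹) := by rw [hAi', hAi, Matrix.one_mul, Matrix.mul_one]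
      _ = A⁻¹ * (A * S * A) * A⁻¹ := by simp only [Matrix.mul_assoc]
      _ = 0 := by rw [h2, Matrix.mul_zero, Matrix.zero_mul]
  refine sp_of_mu hA hAd (fun v => ?_) hX
  by_cases hv : q v ≠ 0
  · exact h1 v hv
  · push Not at hv
    set N := A * (Matrix.vecMulVec v u + Matrix.vecMulVec u v) with hN
    have hmuadd : ∀ s : ℚ, mu A (v + s • u) = mu A v + s • N + (s * s) • mu A u := by
      intro s
      unfold mu
      rw [hN, Matrix.add_vecMulVec, Matrix.vecMulVec_add, Matrix.vecMulVec_add, Matrix.smul_vecMulVec, Matrix.vecMulVec_smul,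
        Matrix.vecMulVec_smul, Matrix.smul_vecMulVec, ← Matrix.mul_smul, ← Matrix.mul_smul, ← Matrix.mul_add, ← Matrix.mul_add, smul_add,
        smul_smul]
      congr 1
      abel
    set β : ℚ := v ⬝ᵥ ((A * S * A) *ᵥ u) + u ⬝ᵥ ((A * S * A) *ᵥ v) with hβ
    have hqadd : ∀ s : ℚ, q (v + s • u) = s * (β + s * q u) := by
      intro s
      have e1 : q (v + s • u) = q v + s * β + s * s * q u := by
        simp only [hq, hβ]
        rw [Matrix.mulVec_add, Matrix.mulVec_smul, dotProduct_add, add_dotProduct, add_dotProduct, dotProduct_smul, dotProduct_smul,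
          smul_dotProduct, smul_dotProduct, smul_eq_mul, smul_eq_mul, smul_eq_mul, smul_eq_mul]
        ring
      rw [e1, hv]
      ring
    have hgood : ∀ s : ℚ, s ≠ 0 → β + s * q u ≠ 0 → mu A v + s • N ∈ P := by
      intro s hs hs'
      have h2 := h1 (v + s • u) (by rw [hqadd]; exact mul_ne_zero hs hs')
      rw [hmuadd] at h2
      have h3 := P.sub_mem h2 (P.smul_mem (s * s) (h1 u hu))
      rw [add_sub_cancel_right] at h3
      exact h3
    have htwo : ∀ s t : ℚ, s ≠ t → mu A v + s • N ∈ P → mu A v + t • N ∈ P → mu A v ∈ P := by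
      intro s t hst hs ht
      have h2 := P.sub_mem (P.smul_mem t hs) (P.smul_mem s ht)
      have h3 : t • (mu A v + s • N) - s • (mu A v + t • N) = (t - s) • mu A v := by
        rw [smul_add, smul_add, smul_smul, smul_smul, sub_smul, mul_comm t s]
        abel
      rw [h3] at h2
      have h4 := P.smul_mem ((t - s)⁻¹) h2
      rw [smul_smul, inv_mul_cancel₀ (sub_ne_zero.2 hst.symm), one_smul] at h4
      exact h4
    by_cases ha : β + 1 * q u = 0
    · refine htwo 2 3 (by norm_num) (hgood 2 (by norm_num) fun h => hu ?_) (hgood 3 (by norm_num) fun h => hu ?_)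
      · linarith
      · linarith
    · by_cases hb : β + 2 * q u = 0
      · refine htwo 1 3 (by norm_num) (hgood 1 (by norm_num) ha) (hgood 3 (by norm_num) fun h => hu ?_)
        linarith
      · exact htwo 1 2 (by norm_num) (hgood 1 (by norm_num) ha) (hgood 2 (by norm_num) hb)

end span

section
variable {n₀ k : ℕ} {n : Fin k → ℕ}

theorem extend_bracket {E : Type} [Field E] [Algebra ℚ E] {V : Submodule ℚ (Tup n₀ n ℚ)} (hV : IsLie V) {X Y : Tup n₀ n E}
    (hX : X ∈ extend E V) (hY : Y ∈ extend E V) : bracket X Y ∈ extend E V := by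
  have hadd : ∀ X Y Z : Tup n₀ n E, bracket (X + Y) Z = bracket X Z + bracket Y Z := by
    intro X Y Z
    refine Prod.ext ?_ ?_
    · show (X.1 + Y.1) * Z.1 - Z.1 * (X.1 + Y.1) = (X.1 * Z.1 - Z.1 * X.1) + (Y.1 * Z.1 - Z.1 * Y.1)
      rw [Matrix.add_mul, Matrix.mul_add]
      abel
    · funext i
      show (X.2 i + Y.2 i) * Z.2 i - Z.2 i * (X.2 i + Y.2 i) = (X.2 i * Z.2 i - Z.2 i * X.2 i) + (Y.2 i * Z.2 i - Z.2 i * Y.2 i)
      rw [Matrix.add_mul, Matrix.mul_add]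
      abel
  have hsmul : ∀ (q : E) (X Z : Tup n₀ n E), bracket (q • X) Z = q • bracket X Z := by
    intro q X Z
    refine Prod.ext ?_ ?_
    · show (q • X.1) * Z.1 - Z.1 * (q • X.1) = q • (X.1 * Z.1 - Z.1 * X.1)
      rw [Matrix.smul_mul, Matrix.mul_smul, smul_sub]
    · funext i
      show (q • X.2 i) * Z.2 i - Z.2 i * (q • X.2 i) = q • (X.2 i * Z.2 i - Z.2 i * X.2 i)
      rw [Matrix.smul_mul, Matrix.mul_smul, smul_sub]
  have hskew : ∀ X Y : Tup n₀ n E, bracket X Y = -bracket Y X := by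
    intro X Y
    refine Prod.ext ?_ ?_
    · exact (neg_sub _ _).symm
    · funext i
      exact (neg_sub _ _).symm
  have hzero : ∀ Z : Tup n₀ n E, bracket (0 : Tup n₀ n E) Z = 0 := by
    intro Z
    have h1 := hsmul 0 0 Z
    rwa [zero_smul, zero_smul] at h1
  have hcast : ∀ X Y : Tup n₀ n ℚ, bracket (castTup E X) (castTup E Y) = castTup E (bracket X Y) := by
    intro X Y
    refine Prod.ext ?_ ?_
    · show X.1.map _ * Y.1.map _ - Y.1.map _ * X.1.map _ = (X.1 * Y.1 - Y.1 * X.1).map _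
      rw [Matrix.map_sub _ (map_sub (algebraMap ℚ E)), Matrix.map_mul, Matrix.map_mul]
    · funext i
      show (X.2 i).map _ * (Y.2 i).map _ - (Y.2 i).map _ * (X.2 i).map _ = (X.2 i * Y.2 i - Y.2 i * X.2 i).map _
      rw [Matrix.map_sub _ (map_sub (algebraMap ℚ E)), Matrix.map_mul, Matrix.map_mul]
  have key : ∀ Y ∈ V, ∀ X ∈ extend E V, bracket X (castTup E Y) ∈ extend E V := by
    intro Y hY X hX
    unfold extend at hX
    induction hX using Submodule.span_induction with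
    | mem x hx =>
      obtain ⟨X, hX, rfl⟩ := hx
      rw [hcast]
      exact Submodule.subset_span ⟨_, hV X hX Y hY, rfl⟩
    | zero => rw [hzero]; exact Submodule.zero_mem _
    | add x y _ _ hx hy => rw [hadd]; exact Submodule.add_mem _ hx hy
    | smul q x _ hx => rw [hsmul]; exact Submodule.smul_mem _ q hx
  have hY' := hY
  unfold extend at hY'
  induction hY' using Submodule.span_induction with
  | mem y hy =>
    obtain ⟨Z, hZ, rfl⟩ := hy
    exact key Z hZ X hX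
  | zero => rw [hskew, hzero, neg_zero]; exact Submodule.zero_mem _
  | add x y hx' hy' hx hy =>
    rw [hskew, hadd, neg_add, ← hskew, ← hskew]
    exact Submodule.add_mem _ (hx hx') (hy hy')
  | smul q x hx' hx =>
    rw [hskew, hsmul, ← smul_neg, ← hskew]
    exact Submodule.smul_mem _ q (hx hx')

/-- a tuple with one component -/
def sg {E : Type} [Zero E] (l : Fin k) (M : Matrix (Fin (n l)) (Fin (n l)) E) : ∀ i, Matrix (Fin (n i)) (Fin (n i)) E := Pi.single l M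

theorem sg_same {E : Type} [Zero E] (l : Fin k) (M : Matrix (Fin (n l)) (Fin (n l)) E) : sg l M l = M := Pi.single_eq_same _ _

theorem sg_ne {E : Type} [Zero E] {l i : Fin k} (h : i ≠ l) (M : Matrix (Fin (n l)) (Fin (n l)) E) : sg l M i = 0 :=
  Pi.single_eq_of_ne h _

theorem sg_bracket {E : Type} [Field E] (l : Fin k) (M M' : Matrix (Fin (n l)) (Fin (n l)) E) (i : Fin k) :
    sg l M i * sg l M' i - sg l M' i * sg l M i = sg l (M * M' - M' * M) i := by
  by_cases hi : i = l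
  · subst hi
    rw [sg_same, sg_same, sg_same]
  · rw [sg_ne hi, sg_ne hi, sg_ne hi, Matrix.mul_zero, sub_zero]

theorem sg_ph (l : Fin k) (φ : ℂ →ₗ[ℚ] ℚ) (M : Matrix (Fin (n l)) (Fin (n l)) ℂ) :
    phT φ ((0, sg l M) : Tup n₀ n ℂ) = ((0, sg l (ph φ M)) : Tup n₀ n ℚ) := by
  refine Prod.ext ?_ ?_
  · ext a b
    exact map_zero φ
  · funext i
    show (sg l M i).map φ = sg l (ph φ M) i
    by_cases hi : i = l
    · subst hi
      rw [sg_same, sg_same]
      rfl
    · rw [sg_ne hi, sg_ne hi]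
      ext a b
      exact map_zero φ

theorem sg_sp {A : ∀ i, Matrix (Fin (n i)) (Fin (n i)) ℚ} (l : Fin k) (M : Matrix (Fin (n l)) (Fin (n l)) ℚ) (hM : IsSp (A l) M)
    (i : Fin k) : IsSp (A i) (sg l M i) := by
  by_cases hi : i = l
  · subst hi
    rw [sg_same]
    exact hM
  · rw [sg_ne hi]
    unfold IsSp
    rw [Matrix.zero_mul, Matrix.transpose_zero, Matrix.mul_zero, add_zero]

theorem sg_eig {Φ : ∀ i, Matrix (Fin (n i)) (Fin (n i)) ℂ} {l : Fin k} {M : Matrix (Fin (n l)) (Fin (n l)) ℂ} {x : ℂ}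
    (h : Φ l * M - M * Φ l = x • M) (d c : ℂ) (i : Fin k) :
    Φ i * (d • sg l M) i - (d • sg l M) i * Φ i - c • (d • sg l M) i = (((x - c) * d) • sg l M) i := by
  rw [Pi.smul_apply, Pi.smul_apply]
  by_cases hi : i = l
  · subst hi
    rw [sg_same, Matrix.mul_smul, Matrix.smul_mul, ← smul_sub, h, smul_smul, smul_smul, ← sub_smul]
    congr 1
    ring
  · rw [sg_ne hi, smul_zero, smul_zero, Matrix.mul_zero, Matrix.zero_mul, smul_zero, sub_zero, sub_zero]

/-- the elements with the projection in `V` -/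
def upV (V : Submodule ℚ (Tup n₀ n ℚ)) (m : ℕ) : Submodule ℚ (Tup m n ℚ) where
  carrier := {Z | ∃ Y, ((Y, Z.2) : Tup n₀ n ℚ) ∈ V}
  add_mem' := fun ⟨Y, hY⟩ ⟨Y', hY'⟩ => ⟨Y + Y', V.add_mem hY hY'⟩
  zero_mem' := ⟨0, V.zero_mem⟩
  smul_mem' := fun c _ ⟨Y, hY⟩ => ⟨c • Y, V.smul_mem c hY⟩

theorem upV_ext {V : Submodule ℚ (Tup n₀ n ℚ)} {Z : Tup n₀ n ℂ} (hZ : Z ∈ extend ℂ (upV V n₀)) :
    ∃ Y, ((Y, Z.2) : Tup n₀ n ℂ) ∈ extend ℂ V := by
  unfold extend at hZ
  induction hZ using Submodule.span_induction with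
  | mem x hx =>
    obtain ⟨X, ⟨Y, hY⟩, rfl⟩ := hx
    exact ⟨_, Submodule.subset_span ⟨_, hY, rfl⟩⟩
  | zero => exact ⟨0, Submodule.zero_mem _⟩
  | add x y _ _ hx hy =>
    obtain ⟨Y, hY⟩ := hx
    obtain ⟨Y', hY'⟩ := hy
    exact ⟨Y + Y', Submodule.add_mem _ hY hY'⟩
  | smul q x _ hx =>
    obtain ⟨Y, hY⟩ := hx
    exact ⟨q • Y, Submodule.smul_mem _ q hY⟩

/-- the components in `V` -/
def compV (V : Submodule ℚ (Tup n₀ n ℚ)) (l : Fin k) : Submodule ℚ (Matrix (Fin (n l)) (Fin (n l)) ℚ) where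
  carrier := {M | ((0, sg l M) : Tup n₀ n ℚ) ∈ V}
  add_mem' := fun {M M'} h h' => by
    have h1 := V.add_mem h h'
    have h2 : ((0, sg l M) : Tup n₀ n ℚ) + (0, sg l M') = (0, sg l (M + M')) := by
      unfold sg
      rw [Prod.mk_add_mk, add_zero, ← Pi.single_add]
    rw [h2] at h1
    exact h1
  zero_mem' := by
    have h2 : ((0, sg l 0) : Tup n₀ n ℚ) = 0 := by
      unfold sg
      rw [Pi.single_zero]
      rfl
    show ((0, sg l 0) : Tup n₀ n ℚ) ∈ V
    rw [h2]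
    exact V.zero_mem
  smul_mem' := fun c M h => by
    have h1 := V.smul_mem c h
    have h2 : c • ((0, sg l M) : Tup n₀ n ℚ) = (0, sg l (c • M)) := by
      unfold sg
      rw [Prod.smul_mk, smul_zero, ← Pi.single_smul]
    rw [h2] at h1
    exact h1

/-- removal of the component on the fixed structure -/
theorem clean {V : Submodule ℚ (Tup n₀ n ℚ)} (hV : IsLie V) {B₀ : Matrix (Fin n₀) (Fin n₀) ℂ} (hB₀ : IsUnit B₀.det)
    {p₀ : Fin n₀ → ℤ} {Φ : ∀ i, Matrix (Fin (n i)) (Fin (n i)) ℂ} (hΦ : ((opB B₀ p₀, Φ) : Tup n₀ n ℂ) ∈ extend ℂ V)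
    {l : Fin k} {M : Matrix (Fin (n l)) (Fin (n l)) ℂ} {x : ℤ} (hM : Φ l * M - M * Φ l = (x : ℂ) • M)
    (hlev : ∀ i j, p₀ i - p₀ j ≠ x) {Y : Matrix (Fin n₀) (Fin n₀) ℂ} (hY : ((Y, sg l M) : Tup n₀ n ℂ) ∈ extend ℂ V) :
    ((0, sg l M) : Tup n₀ n ℂ) ∈ extend ℂ V := by
  classical
  have key : ∀ s : Finset ℤ, ((adp B₀ p₀ s Y, (∏ a ∈ s, ((x : ℂ) - (a : ℂ))) • sg l M) : Tup n₀ n ℂ) ∈ extend ℂ V := by
    intro s
    induction s using Finset.induction_on with
    | empty =>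
      rw [Pool.Agent.X120.HG.adp_empty hB₀, Finset.prod_empty, one_smul]
      exact hY
    | insert c s hc ih =>
      have h1 := Submodule.sub_mem _ (extend_bracket hV hΦ ih) (Submodule.smul_mem _ (c : ℂ) ih)
      refine (congrArg (· ∈ extend ℂ V) (Prod.ext ?_ ?_ :
        bracket ((opB B₀ p₀, Φ) : Tup n₀ n ℂ) (adp B₀ p₀ s Y, (∏ a ∈ s, ((x : ℂ) - (a : ℂ))) • sg l M) -
          (c : ℂ) • ((adp B₀ p₀ s Y, (∏ a ∈ s, ((x : ℂ) - (a : ℂ))) • sg l M) : Tup n₀ n ℂ) =
          (adp B₀ p₀ (insert c s) Y, (∏ a ∈ insert c s, ((x : ℂ) - (a : ℂ))) • sg l M))).mp h1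
      · exact (Pool.Agent.X120.HG.adp_insert hB₀ p₀ Y hc).symm
      · funext i
        rw [Finset.prod_insert hc]
        exact sg_eig hM _ _ i
  set s : Finset ℤ := Finset.univ.image fun x : Fin n₀ × Fin n₀ => p₀ x.1 - p₀ x.2 with hs
  have h1 := key s
  have h2 : adp B₀ p₀ s Y = 0 := by
    unfold adp
    have h3 : (Matrix.of fun i j => (∏ a ∈ s, ((p₀ i : ℂ) - (p₀ j : ℂ) - (a : ℂ))) * (B₀ * Y * B₀⁻¹) i j) = 0 := by
      ext i j
      rw [Matrix.of_apply, Finset.prod_eq_zero (i := p₀ i - p₀ j) (Finset.mem_image.2 ⟨(i, j), Finset.mem_univ _, rfl⟩) (by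
        push_cast
        ring), zero_mul]
      rfl
    rw [h3, Matrix.mul_zero, Matrix.zero_mul]
  rw [h2] at h1
  have h3 : (∏ a ∈ s, ((x : ℂ) - (a : ℂ))) ≠ 0 := by
    refine Finset.prod_ne_zero_iff.2 fun c hc h => ?_
    obtain ⟨y, -, rfl⟩ := Finset.mem_image.1 hc
    have h4 : ((x - (p₀ y.1 - p₀ y.2) : ℤ) : ℂ) = 0 := by
      push_cast
      push_cast at h
      exact h
    have h5 : (x - (p₀ y.1 - p₀ y.2) : ℤ) = 0 := by exact_mod_cast h4
    exact hlev y.1 y.2 (by omega)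
  have h4 := Submodule.smul_mem _ ((∏ a ∈ s, ((x : ℂ) - (a : ℂ)))⁻¹) h1
  rw [Prod.smul_mk, smul_smul, inv_mul_cancel₀ h3, one_smul, smul_zero] at h4
  exact h4

/-- **Structures of small level.** -/
theorem rg_level {w : Fin k → ℕ} {A : ∀ i, Matrix (Fin (n i)) (Fin (n i)) ℚ}
    {H : ∀ i, ℕ → Submodule ℂ (Fin (n i) → ℂ)} (hw : ∀ l, 0 < w l) (hH : ∀ l, IsHodge (w l) (A l) (H l))
    {ω : ∀ l, Fin (n l) → ℂ} (hω0 : ∀ l, ω l ≠ 0) (hω : ∀ l, H l (w l) = Submodule.span ℂ {ω l})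
    (habs : Pool.Agent.X120.HG.RG (0 : Matrix (Fin 0) (Fin 0) ℂ) w A H)
    {B₀ : Matrix (Fin n₀) (Fin n₀) ℂ} (hB₀ : IsUnit B₀.det) {p₀ : Fin n₀ → ℤ} (hlev : ∀ i j l, p₀ i - p₀ j ≠ -(w l : ℤ)) :
    Pool.Agent.X120.HG.RG (opB B₀ p₀) w A H := by
  classical
  intro V hV hΦV X hX
  have hVL : IsLie V := hV
  -- the operator
  have hex : ∀ l, ∃ Φ : Matrix (Fin (n l)) (Fin (n l)) ℂ, Pool.Agent.X120.HG.Hop (w l) (H l) Φ := by
    intro l
    obtain ⟨B, p, i₀, i₁, c₀, h1, h2, h3, h4, h5, h6, h7, h8, h9⟩ :=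
      Pool.Agent.X120.HG.hodge_data (hw l) (hH l).nondeg (hH l).span (hH l).conj (hH l).orth (hω0 l) (hω l)
    exact ⟨_, h9⟩
  choose Φ hop using hex
  have hΦmem : ((opB B₀ p₀, Φ) : Tup n₀ n ℂ) ∈ extend ℂ V := mem_of_phT fun φ => hΦV Φ hop φ
  have hsim := fun l => (hH l).hs.op (hop l)
  have hωΦ : ∀ l, ω l ᵥ* Φ l = (w l : ℂ) • ω l := fun l =>
    hop l (w l) le_rfl (ω l) (by rw [hω l]; exact Submodule.mem_span_singleton_self _)
  -- the projection
  have hproj : ∀ X : ∀ i, Matrix (Fin (n i)) (Fin (n i)) ℚ, (∀ i, IsSp (A i) (X i)) → ∃ Y, ((Y, X) : Tup n₀ n ℚ) ∈ V := by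
    intro X hX
    have h1 : ((0, X) : Tup 0 n ℚ) ∈ upV V 0 := by
      refine habs (upV V 0) ?_ ?_ X hX
      · rintro Z ⟨Y, hY⟩ Z' ⟨Y', hY'⟩
        exact ⟨_, hV _ hY _ hY'⟩
      · intro Φ' hop' φ
        exact ⟨_, hΦV Φ' hop' φ⟩
    exact h1
  have hhv : ∀ l (φ : ℂ →ₗ[ℚ] ℚ), ph φ (hv (A l) (ω l)) = A l * ph φ (Matrix.vecMulVec (ω l) (ω l)) := by
    intro l φ
    unfold hv
    rw [← Pool.Agent.X120.HG.ph_mul_left, Matrix.mul_vecMulVec]
  have hsymm : ∀ l (φ : ℂ →ₗ[ℚ] ℚ), (ph φ (Matrix.vecMulVec (ω l) (ω l)))ᵀ = ph φ (Matrix.vecMulVec (ω l) (ω l)) := by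
    intro l φ
    rw [← Pool.Agent.X120.HG.ph_tr, Matrix.transpose_vecMulVec]
  -- the highest weight vector
  have hstep : ∀ l, ∃ Y, ((Y, sg l (hv (A l) (ω l))) : Tup n₀ n ℂ) ∈ extend ℂ V := by
    intro l
    have h1 : ((0, sg l (hv (A l) (ω l))) : Tup n₀ n ℂ) ∈ extend ℂ (upV V n₀) := by
      refine mem_of_phT fun φ => ?_
      rw [sg_ph]
      exact hproj _ (sg_sp l _ (by rw [hhv]; exact Pool.Agent.X120.HG.sp_symm (hH l).alt (hsymm l φ)))
    exact upV_ext h1
  have heig : ∀ l, Φ l * hv (A l) (ω l) - hv (A l) (ω l) * Φ l = ((-(w l : ℤ) : ℤ) : ℂ) • hv (A l) (ω l) := by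
    intro l
    have h1 : Φ l * cq (A l) = (w l : ℂ) • cq (A l) - cq (A l) * (Φ l)ᵀ := by rw [← hsim l]; abel
    have h2 : Φ l * hv (A l) (ω l) = 0 := by
      unfold hv
      rw [Matrix.mul_vecMulVec, Matrix.mulVec_mulVec, h1, Matrix.sub_mulVec, Matrix.smul_mulVec, ← Matrix.mulVec_mulVec,
        Matrix.mulVec_transpose, hωΦ l, Matrix.mulVec_smul, sub_self, Matrix.zero_vecMulVec]
    have h3 : hv (A l) (ω l) * Φ l = (w l : ℂ) • hv (A l) (ω l) := by
      unfold hv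
      rw [Matrix.vecMulVec_mul, hωΦ l, Matrix.vecMulVec_smul]
    rw [h2, h3, zero_sub]
    push_cast
    rw [neg_smul]
  have hclean : ∀ l, ((0, sg l (hv (A l) (ω l))) : Tup n₀ n ℂ) ∈ extend ℂ V := by
    intro l
    obtain ⟨Y, hY⟩ := hstep l
    exact clean hVL hB₀ hΦmem (heig l) (fun i j => hlev i j l) hY
  -- the ideals
  have hideal : ∀ l (M : Matrix (Fin (n l)) (Fin (n l)) ℚ), IsSp (A l) M → ((0, sg l M) : Tup n₀ n ℚ) ∈ V := by
    intro l M hM
    have hPid : ∀ v, ∀ X ∈ compV V l, mu (A l) v * X - X * mu (A l) v ∈ compV V l := by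
      intro v X hX
      obtain ⟨Y, hY⟩ := hproj _ (sg_sp l _ (Pool.Agent.X120.HG.mu_sp (hH l).alt v))
      have h1 := hV _ hY _ hX
      refine (congrArg (· ∈ V) (Prod.ext ?_ ?_ :
        Pool.Agent.X120.HG.tbr ((Y, sg l (mu (A l) v)) : Tup n₀ n ℚ) ((0, sg l X) : Tup n₀ n ℚ) =
          ((0, sg l (mu (A l) v * X - X * mu (A l) v)) : Tup n₀ n ℚ))).mp h1
      · show Y * 0 - 0 * Y = 0
        rw [Matrix.mul_zero, Matrix.zero_mul, sub_zero]
      · funext i
        exact sg_bracket l _ _ i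
    -- a nonzero element
    obtain ⟨φ, hφ⟩ : ∃ φ : ℂ →ₗ[ℚ] ℚ, ph φ (Matrix.vecMulVec (ω l) (ω l)) ≠ 0 := by
      by_contra h0
      push Not at h0
      obtain ⟨a, ha⟩ : ∃ a, ω l a ≠ 0 := by
        by_contra h1
        push Not at h1
        exact hω0 l (funext h1)
      have h1 : ω l a * ω l a = 0 := by
        refine Pool.Agent.X120.HG.phi_zero fun φ => ?_
        exact congrFun (congrFun (h0 φ) a) a
      exact ha (mul_self_eq_zero.1 h1)
    refine ideal_sp (P := compV V l) (hH l).alt (hH l).nondeg hPid (hsymm l φ) hφ ?_ hM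
    have h1 := phT_mem (hclean l) φ
    rw [sg_ph, hhv] at h1
    exact h1
  have hsum : ((0, X) : Tup n₀ n ℚ) = ∑ l, ((0, sg l (X l)) : Tup n₀ n ℚ) := by
    refine Prod.ext ?_ ?_
    · rw [Prod.fst_sum]
      simp
    · rw [Prod.snd_sum]
      exact (Finset.univ_sum_single X).symm
  rw [hsum]
  exact V.sum_mem fun l _ => hideal l _ (hX l)

end

end Pool.Agent.X120.BM
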