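import Pool.Agent.X120.BM.Lev
import Pool.Agent.X120.BM.Forms

/-!
# Structures of small level: the counting theorem
-/

set_option autoImplicit false

open Matrix

namespace Pool.Agent.X120.BM

/-- There is a basis of eigenvectors (the rows of `B`) of `Φ₀` with integer eigenvalues, no two of which differ by one of the `w_l`. -/
def HasSmallLevel {n₀ k : ℕ} (w : Fin k → ℕ) (Φ₀ : Matrix (Fin n₀) (Fin n₀) ℂ) : Prop :=
  ∃ (B : Matrix (Fin n₀) (Fin n₀) ℂ) (p : Fin n₀ → ℤ), IsUnit B.det ∧ (∀ i, Matrix.vecMul (B i) Φ₀ = (p i : ℂ) • B i) ∧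
    ∀ i j l, p i - p j ≠ w l

/-- **The counting theorem for all structures of small level together.** -/
theorem count_level {k : ℕ} (e : ℕ) (G : Fin k → GSystem) (n : Fin k → ℕ) (b : Fin k → ℕ) (hb : ∀ i, 2 ≤ b i) :
    ∃ K : ℝ, 0 ≤ K ∧ ∀ F : ∀ i, Periods (G i) (n i) e, ∀ w : Fin k → ℕ, ∀ N : ℕ, 2 ≤ N →
      ∀ S : Set (Fin k → ℕ), (∀ t ∈ S, (∀ i, 1 ≤ t i ∧ t i ≤ N) ∧
        ¬ ∀ (A : ∀ i, Matrix (Fin (n i)) (Fin (n i)) ℚ) (H : ∀ i, ℕ → Submodule ℂ (Fin (n i) → ℂ)),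
          IsFibre F w b t A H → ∀ (n₀ : ℕ) (Φ₀ : Matrix (Fin n₀) (Fin n₀) ℂ), HasSmallLevel w Φ₀ →
            Pool.Agent.X120.HG.RG Φ₀ w A H) →
        ((S.ncard : ℕ) : ℝ) * N ≤ K * (N : ℝ) ^ k * Real.log N := by
  obtain ⟨K, hK, h⟩ := count 0 e G n b hb
  refine ⟨K, hK, ?_⟩
  intro F w N hN S hS
  refine h 0 ⟨1, fun _ => 0, by rw [Matrix.det_one]; exact isUnit_one, fun i => Fin.elim0 i⟩ F w N hN S fun t ht =>
    ⟨(hS t ht).1, fun hg => (hS t ht).2 ?_⟩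
  rintro A H hF n₀ Φ₀ ⟨B, p, hB, h1, h2⟩
  have h3 : B * Φ₀ = Matrix.diagonal (fun i => (p i : ℂ)) * B := by
    ext i j
    rw [Matrix.diagonal_mul]
    exact congrFun (h1 i) j
  have h4 : B⁻¹ * (B * Φ₀) = B⁻¹ * (Matrix.diagonal (fun i => (p i : ℂ)) * B) := by rw [h3]
  rw [← Matrix.mul_assoc, Matrix.nonsing_inv_mul _ hB, Matrix.one_mul, ← Matrix.mul_assoc] at h4
  have h5 : Φ₀ = Pool.Agent.X120.HG.opB B p := h4
  rw [h5]
  exact rg_level (fun l => (hF l).1) (fun l => (hF l).2.1) (fun l => (hF l).2.2.1) (fun l => (hF l).2.2.2) (hg A H hF) hB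
    fun i j l h => h2 j i l (by rw [← neg_sub, h, neg_neg])

end Pool.Agent.X120.BM
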