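import Pool.Agent.X120.BM.Cnt

/-!
# Families with big symplectic monodromy: rational Lie algebras which contain the Hodge operator
-/

set_option autoImplicit false

open Matrix

namespace Pool.Agent.X120.BM

section
variable {n₀ k : ℕ} {n : Fin k → ℕ}

/-- the tuples `(X_0, X_1, …, X_k)` of matrices over `E` (block diagonal matrices) -/
abbrev Tup (n₀ : ℕ) {k : ℕ} (n : Fin k → ℕ) (E : Type) : Type :=
  Matrix (Fin n₀) (Fin n₀) E × (∀ i, Matrix (Fin (n i)) (Fin (n i)) E)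

/-- the bracket of tuples -/
def bracket {E : Type} [Field E] (X Y : Tup n₀ n E) : Tup n₀ n E :=
  (X.1 * Y.1 - Y.1 * X.1, fun i => X.2 i * Y.2 i - Y.2 i * X.2 i)

/-- a rational tuple as a tuple over `E` -/
def castTup (E : Type) [Field E] [Algebra ℚ E] (X : Tup n₀ n ℚ) : Tup n₀ n E :=
  (X.1.map (algebraMap ℚ E), fun i => (X.2 i).map (algebraMap ℚ E))

/-- the extension of scalars of a rational space of tuples -/
def extend (E : Type) [Field E] [Algebra ℚ E] (V : Submodule ℚ (Tup n₀ n ℚ)) : Submodule E (Tup n₀ n E) :=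
  Submodule.span E (castTup E '' V)

/-- a rational Lie algebra of block diagonal matrices -/
def IsLie (V : Submodule ℚ (Tup n₀ n ℚ)) : Prop := ∀ X ∈ V, ∀ Y ∈ V, bracket X Y ∈ V

/-- Every rational Lie algebra `V` of block diagonal matrices whose complexification contains `(Φ₀, Φ_1, …, Φ_k)`, `Φ_i` the Hodge
operator of `H_i` (for example the Lie algebra of the Mumford–Tate group), contains `0 × 𝔰𝔭(A_1) × … × 𝔰𝔭(A_k)`. -/
def RelativelyGeneric (Φ₀ : Matrix (Fin n₀) (Fin n₀) ℂ) (w : Fin k → ℕ) (A : ∀ i, Matrix (Fin (n i)) (Fin (n i)) ℚ)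
    (H : ∀ i, ℕ → Submodule ℂ (Fin (n i) → ℂ)) : Prop :=
  ∀ V : Submodule ℚ (Tup n₀ n ℚ), IsLie V →
    (∀ Φ : ∀ i, Matrix (Fin (n i)) (Fin (n i)) ℂ, (∀ i, IsHodgeOperator (w i) (H i) (Φ i)) → (Φ₀, Φ) ∈ extend ℂ V) →
    ∀ X : ∀ i, Matrix (Fin (n i)) (Fin (n i)) ℚ, (∀ i, X i * A i + A i * (X i).transpose = 0) → (0, X) ∈ V

variable {E : Type} [Field E] [Algebra ℚ E]

/-- coordinates of the entries over `ℚ` -/
def phT (φ : E →ₗ[ℚ] ℚ) (Z : Tup n₀ n E) : Tup n₀ n ℚ := (Z.1.map φ, fun i => (Z.2 i).map φ)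

/-- multiplication of the argument by `a` -/
def phS (φ : E →ₗ[ℚ] ℚ) (a : E) : E →ₗ[ℚ] ℚ :=
  { toFun := fun x => φ (a * x)
    map_add' := fun x y => by rw [mul_add, map_add]
    map_smul' := fun c x => by rw [mul_smul_comm, map_smul]; rfl }

theorem phT_cast (φ : E →ₗ[ℚ] ℚ) (X : Tup n₀ n ℚ) : phT φ (castTup E X) = φ 1 • X := by
  have h1 : ∀ q : ℚ, φ (algebraMap ℚ E q) = φ 1 * q := by
    intro q
    rw [Algebra.algebraMap_eq_smul_one, map_smul, smul_eq_mul, mul_comm]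
  refine Prod.ext ?_ ?_
  · ext i j
    exact h1 _
  · funext l
    ext i j
    exact h1 _

theorem phT_mem {V : Submodule ℚ (Tup n₀ n ℚ)} {Z : Tup n₀ n E} (hZ : Z ∈ extend E V) (φ : E →ₗ[ℚ] ℚ) : phT φ Z ∈ V := by
  unfold extend at hZ
  induction hZ using Submodule.span_induction generalizing φ with
  | mem x hx =>
    obtain ⟨Y, hY, rfl⟩ := hx
    rw [phT_cast]
    exact V.smul_mem _ hY
  | zero =>
    have h1 : phT φ (0 : Tup n₀ n E) = 0 := by
      refine Prod.ext ?_ ?_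
      · ext i j
        exact map_zero φ
      · funext l
        ext i j
        exact map_zero φ
    rw [h1]
    exact V.zero_mem
  | add x y _ _ hx hy =>
    have h1 : phT φ (x + y) = phT φ x + phT φ y := by
      refine Prod.ext ?_ ?_
      · ext i j
        exact map_add φ _ _
      · funext l
        ext i j
        exact map_add φ _ _
    rw [h1]
    exact V.add_mem (hx φ) (hy φ)
  | smul a x _ hx => exact hx (phS φ a)

/-- the converse: a tuple all of whose coordinates are in `V` is in the extension -/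
theorem mem_of_phT {V : Submodule ℚ (Tup n₀ n ℚ)} {Z : Tup n₀ n E} (h : ∀ φ : E →ₗ[ℚ] ℚ, phT φ Z ∈ V) : Z ∈ extend E V := by
  classical
  -- a finite-dimensional space with the entries
  set S : Submodule ℚ E := Submodule.span ℚ (Set.range (fun p : Fin n₀ × Fin n₀ => Z.1 p.1 p.2) ∪
    Set.range (fun p : Σ i, Fin (n i) × Fin (n i) => Z.2 p.1 p.2.1 p.2.2)) with hS
  have : Module.Finite ℚ S := Module.Finite.iff_fg.2 (Submodule.fg_span (Set.finite_range _ |>.union (Set.finite_range _)))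
  set bs := Module.finBasis ℚ S with hbs
  obtain ⟨π, hπ⟩ := Submodule.exists_isCompl S
  have hproj : ∃ P : E →ₗ[ℚ] S, ∀ x : S, P x = x := ⟨S.projectionOnto π hπ, fun x => Submodule.projectionOnto_apply_left _ _⟩
  obtain ⟨P, hP⟩ := hproj
  have hexp : ∀ x ∈ S, x = ∑ l, ((bs l : S) : E) * algebraMap ℚ E (bs.repr (P x) l) := by
    intro x hx
    have h1 := bs.sum_repr (P x)
    have h2 : P x = (⟨x, hx⟩ : S) := hP ⟨x, hx⟩
    have h3 := congrArg (Subtype.val : S → E) h1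
    rw [h2] at h3 ⊢
    have h4 : ((∑ i, (bs.repr ⟨x, hx⟩) i • bs i : S) : E) = ∑ i, (bs.repr ⟨x, hx⟩) i • ((bs i : S) : E) := by
      rw [Submodule.coe_sum]
      rfl
    rw [h4] at h3
    have h5 : x = ∑ i, (bs.repr ⟨x, hx⟩) i • ((bs i : S) : E) := h3.symm
    refine h5.trans (Finset.sum_congr rfl fun l _ => ?_)
    rw [Algebra.smul_def, mul_comm]
  let φ : Fin (Module.finrank ℚ S) → E →ₗ[ℚ] ℚ := fun l => (bs.coord l).comp P
  have hZ : Z = ∑ l, ((bs l : S) : E) • castTup E (phT (φ l) Z) := by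
    refine Prod.ext ?_ ?_
    · rw [Prod.fst_sum]
      ext i j
      rw [Matrix.sum_apply]
      exact hexp _ (Submodule.subset_span (Or.inl ⟨(i, j), rfl⟩))
    · rw [Prod.snd_sum]
      funext a
      rw [Finset.sum_apply]
      ext i j
      rw [Matrix.sum_apply]
      exact hexp _ (Submodule.subset_span (Or.inr ⟨⟨a, (i, j)⟩, rfl⟩))
  rw [hZ]
  exact Submodule.sum_mem _ fun l _ => Submodule.smul_mem _ _ (Submodule.subset_span ⟨_, h _, rfl⟩)

theorem rg_of {Φ₀ : Matrix (Fin n₀) (Fin n₀) ℂ} {w : Fin k → ℕ} {A : ∀ i, Matrix (Fin (n i)) (Fin (n i)) ℚ}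
    {H : ∀ i, ℕ → Submodule ℂ (Fin (n i) → ℂ)} (h : Pool.Agent.X120.HG.RG Φ₀ w A H) : RelativelyGeneric Φ₀ w A H := by
  intro V hV hΦ X hX
  exact h V hV (fun Φ hop φ => phT_mem (hΦ Φ hop) φ) X hX

end

/-- **The counting theorem.** -/
theorem count_rel {k : ℕ} (n₀ e : ℕ) (G : Fin k → GSystem) (n : Fin k → ℕ) (b : Fin k → ℕ) (hb : ∀ i, 2 ≤ b i) :
    ∃ K : ℝ, 0 ≤ K ∧ ∀ Φ₀ : Matrix (Fin n₀) (Fin n₀) ℂ, IsSplitOperator Φ₀ →
      ∀ F : ∀ i, Periods (G i) (n i) e, ∀ w : Fin k → ℕ, ∀ N : ℕ, 2 ≤ N →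
      ∀ S : Set (Fin k → ℕ), (∀ t ∈ S, (∀ i, 1 ≤ t i ∧ t i ≤ N) ∧
        ¬ ∀ (A : ∀ i, Matrix (Fin (n i)) (Fin (n i)) ℚ) (H : ∀ i, ℕ → Submodule ℂ (Fin (n i) → ℂ)),
          IsFibre F w b t A H → RelativelyGeneric Φ₀ w A H) →
        ((S.ncard : ℕ) : ℝ) * N ≤ K * (N : ℝ) ^ k * Real.log N := by
  obtain ⟨K, hK, h⟩ := count n₀ e G n b hb
  refine ⟨K, hK, ?_⟩
  intro Φ₀ hΦ₀ F w N hN S hS
  exact h Φ₀ hΦ₀ F w N hN S fun t ht => ⟨(hS t ht).1, fun hg => (hS t ht).2 fun A H hF => rg_of (hg A H hF)⟩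

end Pool.Agent.X120.BM
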