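import Pool.Agent.X120.BM.Lie
import Pool.Agent.X120.HG.Hdt

/-!
# The Lie algebra of the Mumford–Tate group of a sum with fibres
-/

set_option autoImplicit false
set_option linter.unusedSectionVars false

open Matrix

namespace Pool.Agent.X120.BM

section
variable {n₀ k : ℕ} {n : Fin k → ℕ}

/-- a rational Lie algebra of matrices -/
def IsLie₀ (V : Submodule ℚ (Matrix (Fin n₀) (Fin n₀) ℚ)) : Prop := ∀ X ∈ V, ∀ Y ∈ V, X * Y - Y * X ∈ V

/-- the extension of scalars of a rational space of matrices -/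
def extend₀ (E : Type) [Field E] [Algebra ℚ E] (V : Submodule ℚ (Matrix (Fin n₀) (Fin n₀) ℚ)) :
    Submodule E (Matrix (Fin n₀) (Fin n₀) E) :=
  Submodule.span E ((fun X : Matrix (Fin n₀) (Fin n₀) ℚ => X.map (algebraMap ℚ E)) '' V)

/-- The Lie algebra of the Mumford–Tate group of `V_0`: the smallest rational Lie algebra whose complexification contains the Hodge operator -/
def mumfordTate₀ (Φ₀ : Matrix (Fin n₀) (Fin n₀) ℂ) : Submodule ℚ (Matrix (Fin n₀) (Fin n₀) ℚ) :=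
  sInf {V | IsLie₀ V ∧ Φ₀ ∈ extend₀ ℂ V}

/-- The Lie algebra of the Mumford–Tate group of `V_0 ⊕ V_1 ⊕ … ⊕ V_k` -/
def mumfordTate (Φ₀ : Matrix (Fin n₀) (Fin n₀) ℂ) (Φ : ∀ i, Matrix (Fin (n i)) (Fin (n i)) ℂ) : Submodule ℚ (Tup n₀ n ℚ) :=
  sInf {V | IsLie V ∧ (Φ₀, Φ) ∈ extend ℂ V}

/-- `X` multiplies the vector `u ∈ V_0` and the forms `A_i` by `c` and `c w_i`, for some `c`. -/
def IsSimilitude (E : Type) [Field E] [Algebra ℚ E] (u : Fin n₀ → ℚ) (w : Fin k → ℕ)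
    (A : ∀ i, Matrix (Fin (n i)) (Fin (n i)) ℚ) (X : Tup n₀ n E) : Prop :=
  ∃ c : E, Matrix.vecMul (fun a => algebraMap ℚ E (u a)) X.1 = c • (fun a => algebraMap ℚ E (u a)) ∧
    ∀ i, X.2 i * (A i).map (algebraMap ℚ E) + (A i).map (algebraMap ℚ E) * (X.2 i).transpose =
      (c * (w i : E)) • (A i).map (algebraMap ℚ E)

variable {E : Type} [Field E] [Algebra ℚ E]

theorem mem_of_phM {V : Submodule ℚ (Matrix (Fin n₀) (Fin n₀) ℚ)} {Z : Matrix (Fin n₀) (Fin n₀) E}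
    (h : ∀ φ : E →ₗ[ℚ] ℚ, Z.map φ ∈ V) : Z ∈ extend₀ E V := by
  let n' : Fin 0 → ℕ := fun _ => 0
  let V' : Submodule ℚ (Tup n₀ n' ℚ) := V.map (LinearMap.inl ℚ _ _)
  have h1 : ((Z, 0) : Tup n₀ n' E) ∈ extend E V' := by
    refine mem_of_phT fun φ => ⟨Z.map φ, h φ, ?_⟩
    refine Prod.ext rfl ?_
    funext i
    exact Fin.elim0 i
  unfold extend at h1
  have h2 : ∀ W : Tup n₀ n' E, W ∈ Submodule.span E (castTup E '' (V' : Set (Tup n₀ n' ℚ))) → W.1 ∈ extend₀ E V := by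
    intro W hW
    induction hW using Submodule.span_induction with
    | mem x hx =>
      obtain ⟨_, ⟨Y, hY, rfl⟩, rfl⟩ := hx
      exact Submodule.subset_span ⟨Y, hY, rfl⟩
    | zero => exact Submodule.zero_mem _
    | add x y _ _ hx hy => exact Submodule.add_mem _ hx hy
    | smul q x _ hx => exact Submodule.smul_mem _ q hx
  exact h2 _ h1

theorem phM_mem {V : Submodule ℚ (Matrix (Fin n₀) (Fin n₀) ℚ)} {Z : Matrix (Fin n₀) (Fin n₀) E} (hZ : Z ∈ extend₀ E V)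
    (φ : E →ₗ[ℚ] ℚ) : Z.map φ ∈ V := by
  unfold extend₀ at hZ
  induction hZ using Submodule.span_induction generalizing φ with
  | mem x hx =>
    obtain ⟨Y, hY, rfl⟩ := hx
    have h1 : (Y.map (algebraMap ℚ E)).map φ = φ 1 • Y := by
      ext i j
      show φ (algebraMap ℚ E (Y i j)) = φ 1 * Y i j
      rw [Algebra.algebraMap_eq_smul_one, map_smul, smul_eq_mul, mul_comm]
    rw [h1]
    exact V.smul_mem _ hY
  | zero =>
    have h1 : (0 : Matrix (Fin n₀) (Fin n₀) E).map φ = 0 := by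
      ext i j
      exact map_zero φ
    rw [h1]
    exact V.zero_mem
  | add x y _ _ hx hy =>
    have h1 : (x + y).map φ = x.map φ + y.map φ := by
      ext i j
      exact map_add φ _ _
    rw [h1]
    exact V.add_mem (hx φ) (hy φ)
  | smul a x _ hx => exact hx (phS φ a)

theorem op_unique {m w : ℕ} {A : Matrix (Fin m) (Fin m) ℚ} {H : ℕ → Submodule ℂ (Fin m → ℂ)} (hH : IsHodge w A H)
    {Φ Φ' : Matrix (Fin m) (Fin m) ℂ} (h : IsHodgeOperator w H Φ) (h' : IsHodgeOperator w H Φ') : Φ' = Φ := by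
  have h1 : ∀ v : Fin m → ℂ, Matrix.vecMul v Φ' = Matrix.vecMul v Φ := by
    intro v
    have hv : v ∈ ⨆ p : {p : ℕ // p ≤ w}, H p := by
      rw [hH.span]
      exact Submodule.mem_top
    induction hv using Submodule.iSup_induction' with
    | mem p x hx => rw [h' p p.2 x hx, h p p.2 x hx]
    | zero => rw [Matrix.zero_vecMul, Matrix.zero_vecMul]
    | add x y _ _ hx hy => rw [Matrix.add_vecMul, Matrix.add_vecMul, hx, hy]
  ext i j
  have h2 := congrFun (h1 (Pi.single i 1)) j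
  rw [Matrix.single_one_vecMul, Matrix.single_one_vecMul] at h2
  exact h2

theorem lie_sInf₀ (Φ₀ : Matrix (Fin n₀) (Fin n₀) ℂ) : IsLie₀ (mumfordTate₀ Φ₀) := by
  intro X hX Y hY
  rw [mumfordTate₀, Submodule.mem_sInf] at hX hY ⊢
  intro V hV
  exact hV.1 X (hX V hV) Y (hY V hV)

theorem mem_mt₀ (Φ₀ : Matrix (Fin n₀) (Fin n₀) ℂ) : Φ₀ ∈ extend₀ ℂ (mumfordTate₀ Φ₀) := by
  refine mem_of_phM fun φ => ?_
  rw [mumfordTate₀, Submodule.mem_sInf]
  intro V hV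
  exact phM_mem hV.2 φ

theorem lie_sInf (Φ₀ : Matrix (Fin n₀) (Fin n₀) ℂ) (Φ : ∀ i, Matrix (Fin (n i)) (Fin (n i)) ℂ) : IsLie (mumfordTate Φ₀ Φ) := by
  intro X hX Y hY
  rw [mumfordTate, Submodule.mem_sInf] at hX hY ⊢
  intro V hV
  exact hV.1 X (hX V hV) Y (hY V hV)

theorem mem_mt (Φ₀ : Matrix (Fin n₀) (Fin n₀) ℂ) (Φ : ∀ i, Matrix (Fin (n i)) (Fin (n i)) ℂ) :
    ((Φ₀, Φ) : Tup n₀ n ℂ) ∈ extend ℂ (mumfordTate Φ₀ Φ) := by
  refine mem_of_phT fun φ => ?_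
  rw [mumfordTate, Submodule.mem_sInf]
  intro V hV
  exact phT_mem hV.2 φ

theorem phM_mulR (φ : E →ₗ[ℚ] ℚ) {m : ℕ} (Z : Matrix (Fin m) (Fin m) E) (A : Matrix (Fin m) (Fin m) ℚ) :
    (Z * A.map (algebraMap ℚ E)).map φ = Z.map φ * A := by
  ext i j
  show φ (∑ l, Z i l * algebraMap ℚ E (A l j)) = ∑ l, φ (Z i l) * A l j
  rw [map_sum]
  refine Finset.sum_congr rfl fun l _ => ?_
  rw [mul_comm (Z i l), ← Algebra.smul_def, map_smul, smul_eq_mul, mul_comm]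

theorem phM_mulL (φ : E →ₗ[ℚ] ℚ) {m : ℕ} (Z : Matrix (Fin m) (Fin m) E) (A : Matrix (Fin m) (Fin m) ℚ) :
    (A.map (algebraMap ℚ E) * Z).map φ = A * Z.map φ := by
  ext i j
  show φ (∑ l, algebraMap ℚ E (A i l) * Z l j) = ∑ l, A i l * φ (Z l j)
  rw [map_sum]
  refine Finset.sum_congr rfl fun l _ => ?_
  rw [← Algebra.smul_def, map_smul, smul_eq_mul]

theorem phT_sim {u : Fin n₀ → ℚ} {w : Fin k → ℕ} {A : ∀ i, Matrix (Fin (n i)) (Fin (n i)) ℚ} {X : Tup n₀ n E}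
    (h : IsSimilitude E u w A X) (φ : E →ₗ[ℚ] ℚ) : IsSimilitude ℚ u w A (phT φ X) := by
  obtain ⟨c, h1, h2⟩ := h
  refine ⟨φ c, ?_, fun i => ?_⟩
  · funext j
    have h3 := congrArg φ (congrFun h1 j)
    have h4 : φ (Matrix.vecMul (fun a => algebraMap ℚ E (u a)) X.1 j) = ∑ l, u l * φ (X.1 l j) := by
      show φ (∑ l, algebraMap ℚ E (u l) * X.1 l j) = _
      rw [map_sum]
      refine Finset.sum_congr rfl fun l _ => ?_
      rw [← Algebra.smul_def, map_smul, smul_eq_mul]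
    have h5 : φ ((c • fun a => algebraMap ℚ E (u a)) j) = φ c * u j := by
      show φ (c * algebraMap ℚ E (u j)) = _
      rw [mul_comm c, ← Algebra.smul_def, map_smul, smul_eq_mul, mul_comm]
    rw [h4, h5] at h3
    exact h3
  · have h3 := congrArg (fun M : Matrix (Fin (n i)) (Fin (n i)) E => M.map φ) (h2 i)
    have h4 : (X.2 i * (A i).map (algebraMap ℚ E) + (A i).map (algebraMap ℚ E) * (X.2 i).transpose).map φ =
        (X.2 i).map φ * A i + A i * ((X.2 i).map φ)ᵀ := by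
      have e1 : A i * ((X.2 i).map φ)ᵀ = ((A i).map (algebraMap ℚ E) * (X.2 i)ᵀ).map φ := (phM_mulL φ _ _).symm
      rw [← phM_mulR, e1]
      ext a b
      exact map_add φ _ _
    have h5 : ((c * (w i : E)) • (A i).map (algebraMap ℚ E)).map φ = (φ c * (w i : ℚ)) • A i := by
      ext a b
      show φ (c * (w i : E) * algebraMap ℚ E (A i a b)) = φ c * (w i : ℚ) * A i a b
      have e1 : c * (w i : E) * algebraMap ℚ E (A i a b) = algebraMap ℚ E ((w i : ℚ) * A i a b) * c := by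
        rw [map_mul, map_natCast]
        ring
      rw [e1, ← Algebra.smul_def, map_smul, smul_eq_mul]
      ring
    rw [h4, h5] at h3
    have e2 : (A i).map (algebraMap ℚ ℚ) = A i := by
      ext a b
      rfl
    rw [e2]
    exact h3

theorem sim_add {u : Fin n₀ → ℚ} {w : Fin k → ℕ} {A : ∀ i, Matrix (Fin (n i)) (Fin (n i)) ℚ} {X Y : Tup n₀ n E}
    (h : IsSimilitude E u w A X) (h' : IsSimilitude E u w A Y) : IsSimilitude E u w A (X + Y) := by
  obtain ⟨c, h1, h2⟩ := h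
  obtain ⟨c', h1', h2'⟩ := h'
  refine ⟨c + c', ?_, fun i => ?_⟩
  · rw [Prod.fst_add, Matrix.vecMul_add, h1, h1', add_smul]
  · rw [Prod.snd_add, Pi.add_apply, Matrix.add_mul, Matrix.transpose_add, Matrix.mul_add, add_mul, add_smul, ← h2 i, ← h2' i]
    abel

theorem sim_smul {u : Fin n₀ → ℚ} {w : Fin k → ℕ} {A : ∀ i, Matrix (Fin (n i)) (Fin (n i)) ℚ} {X : Tup n₀ n E} (q : E)
    (h : IsSimilitude E u w A X) : IsSimilitude E u w A (q • X) := by
  obtain ⟨c, h1, h2⟩ := h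
  refine ⟨q * c, ?_, fun i => ?_⟩
  · rw [Prod.smul_fst, Matrix.vecMul_smul, h1, smul_smul]
  · rw [Prod.smul_snd, Pi.smul_apply, Matrix.smul_mul, Matrix.transpose_smul, Matrix.mul_smul, ← smul_add, h2 i, smul_smul, mul_assoc]

theorem sim_zero {u : Fin n₀ → ℚ} {w : Fin k → ℕ} {A : ∀ i, Matrix (Fin (n i)) (Fin (n i)) ℚ} :
    IsSimilitude E u w A (0 : Tup n₀ n E) := by
  refine ⟨0, ?_, fun i => ?_⟩
  · rw [Prod.fst_zero, Matrix.vecMul_zero, zero_smul]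
  · rw [Prod.snd_zero, Pi.zero_apply, Matrix.zero_mul, Matrix.transpose_zero, Matrix.mul_zero, zero_mul, zero_smul, add_zero]

theorem sim_cast {u : Fin n₀ → ℚ} {w : Fin k → ℕ} {A : ∀ i, Matrix (Fin (n i)) (Fin (n i)) ℚ} {X : Tup n₀ n ℚ}
    (h : IsSimilitude ℚ u w A X) : IsSimilitude E u w A (castTup E X) := by
  obtain ⟨c, h1, h2⟩ := h
  refine ⟨algebraMap ℚ E c, ?_, fun i => ?_⟩
  · funext j
    have h3 := congrArg (algebraMap ℚ E) (congrFun h1 j)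
    show ∑ l, algebraMap ℚ E (u l) * algebraMap ℚ E (X.1 l j) = algebraMap ℚ E c * algebraMap ℚ E (u j)
    rw [← map_mul]
    refine Eq.trans ?_ h3
    show _ = algebraMap ℚ E (∑ l, u l * X.1 l j)
    rw [map_sum]
    exact Finset.sum_congr rfl fun l _ => (map_mul _ _ _).symm
  · have h3 := congrArg (fun M : Matrix (Fin (n i)) (Fin (n i)) ℚ => M.map (algebraMap ℚ E)) (h2 i)
    have e2 : (A i).map (algebraMap ℚ ℚ) = A i := by
      ext a b
      rfl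
    rw [e2] at h3
    have h4 : (X.2 i * A i + A i * (X.2 i)ᵀ).map (algebraMap ℚ E) =
        (X.2 i).map (algebraMap ℚ E) * (A i).map (algebraMap ℚ E) +
          (A i).map (algebraMap ℚ E) * ((X.2 i).map (algebraMap ℚ E))ᵀ := by
      rw [Matrix.map_add _ (map_add _), Matrix.map_mul, Matrix.map_mul]
      rfl
    rw [h4] at h3
    refine h3.trans ?_
    ext a b
    show algebraMap ℚ E (c * (w i : ℚ) * A i a b) = algebraMap ℚ E c * (w i : E) * algebraMap ℚ E (A i a b)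
    rw [map_mul, map_mul, map_natCast]

/-- the multiple is unique -/
theorem sim_scalar {u : Fin n₀ → ℚ} (hu : u ≠ 0) {c c' : E} {M : Matrix (Fin n₀) (Fin n₀) E}
    (h : Matrix.vecMul (fun a => algebraMap ℚ E (u a)) M = c • (fun a => algebraMap ℚ E (u a)))
    (h' : Matrix.vecMul (fun a => algebraMap ℚ E (u a)) M = c' • (fun a => algebraMap ℚ E (u a))) : c = c' := by
  obtain ⟨j, hj⟩ : ∃ j, u j ≠ 0 := by
    by_contra h0
    push Not at h0
    exact hu (funext h0)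
  have h1 := congrFun (h.symm.trans h') j
  have h2 : algebraMap ℚ E (u j) ≠ 0 := fun h3 => hj ((algebraMap ℚ E).injective (h3.trans (map_zero _).symm))
  exact mul_right_cancel₀ h2 h1

variable {Φ₀ : Matrix (Fin n₀) (Fin n₀) ℂ} {w : Fin k → ℕ} {A : ∀ i, Matrix (Fin (n i)) (Fin (n i)) ℚ}
  {H : ∀ i, ℕ → Submodule ℂ (Fin (n i) → ℂ)} {Φ : ∀ i, Matrix (Fin (n i)) (Fin (n i)) ℂ} {u : Fin n₀ → ℚ}

theorem sp_in (hH : ∀ i, IsHodge (w i) (A i) (H i)) (h : Pool.Agent.X120.HG.RG Φ₀ w A H)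
    (hop : ∀ i, IsHodgeOperator (w i) (H i) (Φ i)) {X : ∀ i, Matrix (Fin (n i)) (Fin (n i)) ℚ}
    (hX : ∀ i, X i * A i + A i * (X i)ᵀ = 0) : ((0, X) : Tup n₀ n ℚ) ∈ mumfordTate Φ₀ Φ := by
  refine rg_of h _ (lie_sInf Φ₀ Φ) (fun Φ' hop' => ?_) X hX
  have h1 : Φ' = Φ := funext fun i => op_unique (hH i) (hop i) (hop' i)
  rw [h1]
  exact mem_mt Φ₀ Φ

/-- the Lie algebra of the similitudes over `V` -/
def simLie (V : Submodule ℚ (Matrix (Fin n₀) (Fin n₀) ℚ)) (u : Fin n₀ → ℚ) (w : Fin k → ℕ)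
    (A : ∀ i, Matrix (Fin (n i)) (Fin (n i)) ℚ) : Submodule ℚ (Tup n₀ n ℚ) where
  carrier := {X | X.1 ∈ V ∧ IsSimilitude ℚ u w A X}
  add_mem' := fun h h' => ⟨V.add_mem h.1 h'.1, sim_add h.2 h'.2⟩
  zero_mem' := ⟨V.zero_mem, sim_zero⟩
  smul_mem' := fun q _ h => ⟨V.smul_mem q h.1, sim_smul q h.2⟩

theorem sim_bracket {X Y : Tup n₀ n ℚ} (h : IsSimilitude ℚ u w A X) (h' : IsSimilitude ℚ u w A Y) :
    IsSimilitude ℚ u w A (bracket X Y) := by
  obtain ⟨c, h1, h2⟩ := h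
  obtain ⟨c', h1', h2'⟩ := h'
  refine ⟨0, ?_, fun i => ?_⟩
  · show Matrix.vecMul _ (X.1 * Y.1 - Y.1 * X.1) = _
    rw [Matrix.vecMul_sub, ← Matrix.vecMul_vecMul, ← Matrix.vecMul_vecMul, h1, h1', Matrix.smul_vecMul, Matrix.smul_vecMul, h1, h1',
      smul_smul, smul_smul, mul_comm c c', sub_self, zero_smul]
  · have h3 := Pool.Agent.X120.HG.br_sp (h2 i) (h2' i)
    rw [zero_mul, zero_smul]
    exact h3

/-- the projection -/
theorem mt_proj (Φ₀ : Matrix (Fin n₀) (Fin n₀) ℂ) (Φ : ∀ i, Matrix (Fin (n i)) (Fin (n i)) ℂ) :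
    mumfordTate₀ Φ₀ ≤ (mumfordTate Φ₀ Φ).map (LinearMap.fst ℚ _ _) := by
  refine sInf_le ⟨?_, mem_of_phM fun φ => ⟨phT φ ((Φ₀, Φ) : Tup n₀ n ℂ), phT_mem (mem_mt Φ₀ Φ) φ, rfl⟩⟩
  rintro _ ⟨X, hX, rfl⟩ _ ⟨Y, hY, rfl⟩
  exact ⟨bracket X Y, lie_sInf Φ₀ Φ X hX Y hY, rfl⟩

/-- extension of scalars and projections -/
theorem extend_fst {V : Submodule ℚ (Tup n₀ n ℚ)} {V₀ : Submodule ℚ (Matrix (Fin n₀) (Fin n₀) ℚ)}
    (h : V₀ ≤ V.map (LinearMap.fst ℚ _ _)) : extend₀ E V₀ ≤ (extend E V).map (LinearMap.fst E _ _) := by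
  unfold extend₀
  rw [Submodule.span_le]
  rintro _ ⟨M, hM, rfl⟩
  obtain ⟨X, hX, rfl⟩ := h hM
  exact ⟨castTup E X, Submodule.subset_span ⟨X, hX, rfl⟩, rfl⟩

/-- **The Lie algebra of the Mumford–Tate group.** -/
theorem mt_desc (hH : ∀ i, IsHodge (w i) (A i) (H i)) (h : Pool.Agent.X120.HG.RG Φ₀ w A H)
    (hop : ∀ i, IsHodgeOperator (w i) (H i) (Φ i)) (hu : u ≠ 0)
    (hu1 : Matrix.vecMul (fun a => algebraMap ℚ ℂ (u a)) Φ₀ = fun a => algebraMap ℚ ℂ (u a)) :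
    mumfordTate Φ₀ Φ = simLie (mumfordTate₀ Φ₀) u w A := by
  -- the operator is in the complexification of the similitudes
  have hsimC : IsSimilitude ℂ u w A ((Φ₀, Φ) : Tup n₀ n ℂ) := by
    refine ⟨1, ?_, fun i => ?_⟩
    · rw [one_smul]
      exact hu1
    · have h1 := (hH i).hs.op (hop i)
      have h2 : (A i).map (algebraMap ℚ ℂ) = Pool.Agent.X120.HG.cq (A i) := by
        ext a b
        exact eq_ratCast (algebraMap ℚ ℂ) _
      rw [h2, one_mul]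
      exact h1
  have hle : mumfordTate Φ₀ Φ ≤ simLie (mumfordTate₀ Φ₀) u w A := by
    refine sInf_le ⟨?_, mem_of_phT fun φ => ⟨phM_mem (mem_mt₀ Φ₀) φ, phT_sim hsimC φ⟩⟩
    intro X hX Y hY
    exact ⟨lie_sInf₀ Φ₀ _ hX.1 _ hY.1, sim_bracket hX.2 hY.2⟩
  -- the projection
  have hpr := mt_proj Φ₀ Φ
  refine le_antisymm hle fun X hX => ?_
  obtain ⟨X', hX', hX1⟩ := hpr hX.1
  obtain ⟨c, h1, h2⟩ := hX.2
  obtain ⟨c', h1', h2'⟩ := (hle hX').2
  have hX1' : X'.1 = X.1 := hX1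
  rw [hX1'] at h1'
  have hc := sim_scalar hu h1 h1'
  subst hc
  have h3 : ((0, X.2 - X'.2) : Tup n₀ n ℚ) ∈ mumfordTate Φ₀ Φ := by
    refine sp_in hH h hop fun i => ?_
    have e2 : (A i).map (algebraMap ℚ ℚ) = A i := by
      ext a b
      rfl
    have h4 := h2 i
    have h5 := h2' i
    rw [e2] at h4 h5
    rw [Pi.sub_apply, Matrix.transpose_sub, Matrix.sub_mul, Matrix.mul_sub, sub_add_sub_comm, h4, h5, sub_self]
  have h4 : X = X' + ((0, X.2 - X'.2) : Tup n₀ n ℚ) := by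
    refine Prod.ext ?_ ?_
    · rw [Prod.fst_add, hX1', add_zero]
    · rw [Prod.snd_add]
      exact (add_sub_cancel _ _).symm
  rw [h4]
  exact Submodule.add_mem _ hX' h3

/-- the same over extension fields -/
theorem extend_sim {V : Submodule ℚ (Matrix (Fin n₀) (Fin n₀) ℚ)} {X : Tup n₀ n E} :
    X ∈ extend E (simLie V u w A) ↔ X.1 ∈ extend₀ E V ∧ IsSimilitude E u w A X := by
  constructor
  · intro h
    unfold extend at h
    induction h using Submodule.span_induction with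
    | mem x hx =>
      obtain ⟨Y, hY, rfl⟩ := hx
      exact ⟨Submodule.subset_span ⟨_, hY.1, rfl⟩, sim_cast hY.2⟩
    | zero => exact ⟨Submodule.zero_mem _, sim_zero⟩
    | add x y _ _ hx hy => exact ⟨Submodule.add_mem _ hx.1 hy.1, sim_add hx.2 hy.2⟩
    | smul q x _ hx => exact ⟨Submodule.smul_mem _ q hx.1, sim_smul q hx.2⟩
  · rintro ⟨h1, h2⟩
    exact mem_of_phT fun φ => ⟨phM_mem h1 φ, phT_sim h2 φ⟩

end

end Pool.Agent.X120.BM
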